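import Pool.Agent.H11.HV.Defs
import Pool.Agent.H11.TH.Sec

/-!
# Module Cnt (MP_187c26_nt, the vertex inequality): the Hilbert function of a set on which only multiples of `F` vanish

Proof. `d l = F.degreeOf l`, `c = ∑ d l ≤ m`. (1) `res : restrictDegree (Fin n) Ω m → (Z → Ω)` is the restriction map
with range `secs Z m`; rank-nullity (`LinearMap.finrank_range_add_finrank_ker`, everything finite-dimensional, see
`restr_finite`, `secs_finite` in the file TH/Sec, the first is private: copy it). (2) `finrank (restrictDegree) ≥ (m+1)^n`: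
the monomials `monomial (fs b) 1`, `b : Bx n m`, are linearly independent and lie in it
(`LinearIndependent.fintype_card_le_finrank`, `basisMonomials`). (3) The kernel: `p` in the kernel is in `idl Z`, so
`p = F * q`, `degreeOf l q + d l = degreeOf l p ≤ m` if `p ≠ 0` (`degreeOf_mul_eq`). So the kernel is contained in the
image under multiplication by `F` of the span of the `monomial (fb k) 1`, `k : Sm n m d`, which has dimension at
most `∏ (m + 1 - d l)` (`finrank_span_le_card`, `Submodule.finrank_mono`, `finrank_map_le`). (4) Numbers: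
`(∑ d l) * (m - c + 1)^(n-1) + ∏ (m + 1 - d l) ≤ (m + 1)^n` for `c = ∑ d l ≤ m` (`num_ineq`; induction on `n` with
`Fin.prod_univ_succ` in the form `∏ (x - d l) + (∑ d l) y^(n-1) ≤ x^n` for naturals `y ≤ x - d l`, `d l ≤ x`: for
`n + 1`: `(x - d 0) P + d 0 y^n + y (∑' d l) y^(n-1) ≤ (x - d 0)(P + (∑' d l) y^(n-1)) + d 0 x^n ≤ x^(n+1)`, `P` the
product of the other factors).
-/

set_option autoImplicit false
set_option linter.unusedSectionVars false

open MvPolynomial

namespace Pool.Agent.H11.HV

open Pool.Agent.H11.TH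

theorem num_ineq (n x y : ℕ) (d : Fin n → ℕ) (hd : ∀ l, y + d l ≤ x) :
    ∏ l, (x - d l) + (∑ l, d l) * y ^ (n - 1) ≤ x ^ n := by
  induction n with
  | zero => simp
  | succ n ih =>
    have h0 := hd 0
    have hi := ih (fun l => d l.succ) (fun l => hd l.succ)
    rw [Fin.prod_univ_succ, Fin.sum_univ_succ]
    obtain ⟨P, hP⟩ : ∃ P, P = ∏ l : Fin n, (x - d l.succ) := ⟨_, rfl⟩
    obtain ⟨S, hS⟩ : ∃ S, S = ∑ l : Fin n, d l.succ := ⟨_, rfl⟩
    rw [← hP, ← hS] at hi
    rw [← hP, ← hS, Nat.add_sub_cancel]
    obtain ⟨u, hu⟩ : ∃ u, x = u + d 0 := ⟨x - d 0, by omega⟩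
    have hyu : y ≤ u := by omega
    have hyx : y ≤ x := by omega
    have hxu : x - d 0 = u := by omega
    rw [hxu]
    have h1 : d 0 * y ^ n ≤ d 0 * x ^ n := Nat.mul_le_mul_left _ (Nat.pow_le_pow_left hyx n)
    have h2 : u * P + S * y ^ n ≤ u * x ^ n := by
      rcases Nat.eq_zero_or_pos n with hn | hn
      · subst hn
        have hS0 : S = 0 := by rw [hS]; simp
        have hP1 : P = 1 := by rw [hP]; simp
        rw [hS0, hP1]
        simp
      · obtain ⟨k, rfl⟩ : ∃ k, n = k + 1 := ⟨n - 1, by omega⟩
        rw [Nat.add_sub_cancel] at hi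
        have h3 : S * y ^ (k + 1) ≤ u * (S * y ^ k) := by
          calc S * y ^ (k + 1) = y * (S * y ^ k) := by ring
            _ ≤ u * (S * y ^ k) := Nat.mul_le_mul_right _ hyu
        calc u * P + S * y ^ (k + 1) ≤ u * P + u * (S * y ^ k) := Nat.add_le_add_left h3 _
          _ = u * (P + S * y ^ k) := by ring
          _ ≤ u * x ^ (k + 1) := Nat.mul_le_mul_left _ hi
    calc u * P + (d 0 + S) * y ^ n = (u * P + S * y ^ n) + d 0 * y ^ n := by ring
      _ ≤ u * x ^ n + d 0 * x ^ n := Nat.add_le_add h2 h1
      _ = (u + d 0) * x ^ n := by ring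
      _ = x ^ (n + 1) := by rw [← hu]; ring

private theorem restr_fin {Ω : Type} [Field Ω] {n : ℕ} (m : ℕ) : Module.Finite Ω (restrictDegree (Fin n) Ω m) := by
  classical
  rw [Module.Finite.iff_fg]
  refine ⟨(Fintype.piFinset (fun _ : Fin n => Finset.range (m + 1))).image
    (fun b : Fin n → ℕ => (monomial (Finsupp.equivFunOnFinite.symm b) (1 : Ω) : MvPolynomial (Fin n) Ω)), ?_⟩
  apply le_antisymm
  · rw [Submodule.span_le]
    intro p hp
    simp only [Finset.coe_image, Set.mem_image, Finset.mem_coe, Fintype.mem_piFinset,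
      Finset.mem_range] at hp
    obtain ⟨b, hb, rfl⟩ := hp
    rw [SetLike.mem_coe, mem_restrictDegree]
    intro s hs i
    have hs' := support_monomial_subset hs
    rw [Finset.mem_singleton] at hs'
    subst hs'
    have := hb i
    simp only [Finsupp.equivFunOnFinite_symm_apply_apply]
    omega
  · intro p hp
    rw [mem_restrictDegree] at hp
    rw [p.as_sum]
    refine Submodule.sum_mem _ fun s hs => ?_
    have : (monomial s (coeff s p) : MvPolynomial (Fin n) Ω) =
        coeff s p • monomial s (1 : Ω) := by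
      rw [smul_monomial, smul_eq_mul, mul_one]
    rw [this]
    refine Submodule.smul_mem _ _ (Submodule.subset_span ?_)
    simp only [Finset.coe_image, Set.mem_image, Finset.mem_coe, Fintype.mem_piFinset,
      Finset.mem_range]
    refine ⟨s, fun i => Nat.lt_succ_of_le (hp s hs i), ?_⟩
    congr 1
    ext i
    simp


private theorem rank_lb {Ω : Type} [Field Ω] (n m : ℕ) :
    (m + 1) ^ n ≤ Module.finrank Ω (restrictDegree (Fin n) Ω m) := by
  classical
  haveI := restr_fin (Ω := Ω) (n := n) m
  have hmem : ∀ b : Bx n m, (monomial (fs b) (1 : Ω) : MvPolynomial (Fin n) Ω) ∈ restrictDegree (Fin n) Ω m := by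
    intro b
    rw [mem_restrictDegree]
    intro s hs i
    have hs' := support_monomial_subset hs
    rw [Finset.mem_singleton] at hs'
    subst hs'
    have := (b i).2
    show ((b i : Fin (m + 1)) : ℕ) ≤ m
    omega
  have hlin0 : LinearIndependent Ω (fun b : Bx n m => (monomial (fs b) (1 : Ω) : MvPolynomial (Fin n) Ω)) := by
    have h1 := (basisMonomials (Fin n) Ω).linearIndependent.comp (fs : Bx n m → Fin n →₀ ℕ) fs_inj
    have h2 : (⇑(basisMonomials (Fin n) Ω) ∘ (fs : Bx n m → Fin n →₀ ℕ)) =
        (fun b : Bx n m => (monomial (fs b) (1 : Ω) : MvPolynomial (Fin n) Ω)) := by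
      funext b
      simp
    rw [h2] at h1
    exact h1
  have hlin : LinearIndependent Ω (fun b : Bx n m => (⟨_, hmem b⟩ : restrictDegree (Fin n) Ω m)) :=
    LinearIndependent.of_comp (restrictDegree (Fin n) Ω m).subtype hlin0
  have h3 := hlin.fintype_card_le_finrank
  have hcI : Fintype.card (Bx n m) = (m + 1) ^ n := by
    rw [Fintype.card_pi]
    simp
  rw [hcI] at h3
  exact h3

theorem secs_count {Ω : Type} [Field Ω] {n : ℕ} (Z : Set (Tor Ω n)) (F : MvPolynomial (Fin n) Ω)
    (hF : F ≠ 0) (hZ : ∀ p ∈ idl Z, F ∣ p) (m : ℕ) (hm : ∑ l, F.degreeOf l ≤ m) :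
    (∑ l, F.degreeOf l) * (m - (∑ l, F.degreeOf l) + 1) ^ (n - 1) ≤
      Module.finrank Ω (secs Z m) := by
  classical
  haveI := restr_fin (Ω := Ω) (n := n) m
  obtain ⟨R, hR⟩ : ∃ R : MvPolynomial (Fin n) Ω →ₗ[Ω] (Z → Ω),
      R = LinearMap.pi fun z : Z => (aeval (crd (z : Tor Ω n))).toLinearMap := ⟨_, rfl⟩
  have hRa : ∀ p z, R p z = aeval (crd (z : Tor Ω n)) p := fun p z => by rw [hR]; rfl
  have hrn := LinearMap.finrank_range_add_finrank_ker (R.domRestrict (restrictDegree (Fin n) Ω m))
  rw [LinearMap.range_domRestrict] at hrn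
  have hsec : secs Z m = (restrictDegree (Fin n) Ω m).map R := by rw [hR]; rfl
  rw [← hsec] at hrn
  -- the kernel
  let v : Sm n m (fun l => F.degreeOf l) → MvPolynomial (Fin n) Ω := fun k => monomial (fb k) (1 : Ω)
  have hker : Module.finrank Ω (LinearMap.ker (R.domRestrict (restrictDegree (Fin n) Ω m))) ≤
      ∏ l, (m + 1 - F.degreeOf l) := by
    rw [← Submodule.finrank_map_subtype_eq]
    have hle : (LinearMap.ker (R.domRestrict (restrictDegree (Fin n) Ω m))).map
        (restrictDegree (Fin n) Ω m).subtype ≤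
        (Submodule.span Ω (Set.range v)).map (LinearMap.mulLeft Ω F) := by
      rintro _ ⟨⟨p, hp⟩, hpk, rfl⟩
      have hpk' : R p = 0 := hpk
      have hpi : p ∈ idl Z := by
        unfold idl
        rw [mem_vanishingIdeal_iff]
        rintro _ ⟨z, hzV, rfl⟩
        have := congrFun hpk' ⟨z, hzV⟩
        rw [hRa] at this
        exact this
      obtain ⟨q, hq⟩ := hZ p hpi
      show p ∈ _
      refine ⟨q, ?_, hq.symm⟩
      by_cases hq0 : q = 0
      · rw [hq0]; exact Submodule.zero_mem _
      · have hqs : q ∈ Submodule.span Ω (Set.range v) := by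
          rw [q.as_sum]
          refine Submodule.sum_mem _ fun s hs => ?_
          have h1 : (monomial s (coeff s q) : MvPolynomial (Fin n) Ω) =
              coeff s q • monomial s (1 : Ω) := by
            rw [smul_monomial, smul_eq_mul, mul_one]
          rw [h1]
          refine Submodule.smul_mem _ _ (Submodule.subset_span ?_)
          have hlt : ∀ l, s l < m + 1 - F.degreeOf l := by
            intro l
            have h2 := degreeOf_mul_eq (n := l) hF hq0
            rw [← hq] at h2
            have h3 : p.degreeOf l ≤ m := by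
              rw [degreeOf_le_iff]
              intro t ht
              exact (mem_restrictDegree _ _ _).1 hp t ht l
            have h4 : s l ≤ q.degreeOf l := (degreeOf_le_iff.mp le_rfl) s hs
            omega
          refine ⟨fun l => ⟨s l, hlt l⟩, ?_⟩
          have hfs : (fb (fun l => ⟨s l, hlt l⟩ : Sm n m (fun l => F.degreeOf l))) = s := by
            ext l
            rfl
          show monomial (fb _) (1 : Ω) = _
          rw [hfs]
        exact hqs
    have : Module.Finite Ω (Submodule.span Ω (Set.range v)) := Module.Finite.span_of_finite Ω (Set.finite_range v)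
    refine (Submodule.finrank_mono hle).trans ?_
    refine (Submodule.finrank_map_le _ _).trans ?_
    refine (finrank_range_le_card v).trans ?_
    rw [Fintype.card_pi]
    refine le_of_eq (Finset.prod_congr rfl fun l _ => Fintype.card_fin _)
  have hlb := rank_lb (Ω := Ω) n m
  obtain ⟨c, hc⟩ : ∃ c, c = ∑ l, F.degreeOf l := ⟨_, rfl⟩
  rw [← hc] at hm ⊢
  have hnum := num_ineq n (m + 1) (m - c + 1) (fun l => F.degreeOf l) (by
    intro l
    have h1 : F.degreeOf l ≤ c := by
      rw [hc]
      exact Finset.single_le_sum (f := fun l => F.degreeOf l) (fun _ _ => Nat.zero_le _) (Finset.mem_univ l)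
    show m - c + 1 + F.degreeOf l ≤ m + 1
    omega)
  rw [← hc] at hnum
  omega

end Pool.Agent.H11.HV
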