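import Mathlib

/-!
# Definitions (MP_187c26_nt, the vertex inequality, modules H11 HV)

`Bx n T` = the exponents in `{0, …, T}^n`, `Sm n T d` = those with `k_l ≤ T - d_l`; `IsVtx F v`: `v` is a vertex of the
Newton polytope of `F`; `Ix`: a numbering of `Bx n T` by `Sm n T d` (through `k ↦ v + k`) and `Fin H` (the other
exponents); `mx e P`: the square matrix of the values at `P_j` of the monomials numbered by `Fin H`.
-/

set_option autoImplicit false

open MvPolynomial

namespace Pool.Agent.H11.HV

/-- the exponents with all entries at most `T` -/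
abbrev Bx (n T : ℕ) : Type := Fin n → Fin (T + 1)

/-- the exponents `k` with `k_l + d_l ≤ T` -/
abbrev Sm (n T : ℕ) (d : Fin n → ℕ) : Type := (l : Fin n) → Fin (T + 1 - d l)

/-- the exponent vector of an element of `Bx` -/
noncomputable def fs {n T : ℕ} (m : Bx n T) : Fin n →₀ ℕ :=
  Finsupp.equivFunOnFinite.symm fun l => (m l : ℕ)

/-- the exponent vector of an element of `Sm` -/
noncomputable def fb {n T : ℕ} {d : Fin n → ℕ} (k : Sm n T d) : Fin n →₀ ℕ :=
  Finsupp.equivFunOnFinite.symm fun l => (k l : ℕ)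

/-- `v` is a vertex of the Newton polytope of `F`: some linear form has its only minimum on the support at `v` -/
def IsVtx {R : Type} [CommSemiring R] {n : ℕ} (F : MvPolynomial (Fin n) R) (v : Fin n →₀ ℕ) : Prop :=
  v ∈ F.support ∧ ∃ lam : Fin n → ℤ, ∀ m ∈ F.support, m ≠ v →
    ∑ l, lam l * (v l : ℤ) < ∑ l, lam l * (m l : ℤ)

/-- a numbering of `Bx n T`: first the `v + k`, `k ∈ Sm n T d`, then the others -/
structure Ix (n T H : ℕ) (d : Fin n → ℕ) (v : Fin n →₀ ℕ) where
  /-- the numbering -/
  e : Sm n T d ⊕ Fin H ≃ Bx n T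
  he : ∀ k : Sm n T d, fs (e (Sum.inl k)) = v + fb k

/-- the matrix of the values of the monomials of the second kind at the points `P j` -/
noncomputable def mx {Ω : Type} [Field Ω] {n T H : ℕ} {d : Fin n → ℕ} {v : Fin n →₀ ℕ}
    (e : Ix n T H d v) (P : Fin H → Fin n → Ω) : Matrix (Fin H) (Fin H) Ω :=
  fun i j => ∏ l, P j l ^ (e.e (Sum.inr i) l : ℕ)

theorem fs_inj {n T : ℕ} : Function.Injective (fs : Bx n T → Fin n →₀ ℕ) := by
  intro a b h
  have h1 := Finsupp.equivFunOnFinite.symm.injective h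
  funext l
  exact Fin.ext (congrFun h1 l)

theorem fb_inj {n T : ℕ} {d : Fin n → ℕ} : Function.Injective (fb : Sm n T d → Fin n →₀ ℕ) := by
  intro a b h
  have h1 := Finsupp.equivFunOnFinite.symm.injective h
  funext l
  exact Fin.ext (congrFun h1 l)

/-- numberings exist -/
theorem ix_exists (n T : ℕ) (d : Fin n → ℕ) (v : Fin n →₀ ℕ) (hv : ∀ l, v l ≤ d l) :
    ∃ H : ℕ, H + ∏ l, (T + 1 - d l) = (T + 1) ^ n ∧ Nonempty (Ix n T H d v) := by
  classical
  have hlt : ∀ (k : Sm n T d) (l : Fin n), v l + (k l : ℕ) < T + 1 := by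
    intro k l
    have h1 := (k l).2
    have h2 := hv l
    omega
  let emb : Sm n T d → Bx n T := fun k l => ⟨v l + (k l : ℕ), hlt k l⟩
  have hemb : Function.Injective emb := by
    intro a b h
    funext l
    have h1 := congrArg (fun z : Bx n T => ((z l : Fin (T + 1)) : ℕ)) h
    simp only [emb] at h1
    exact Fin.ext (by omega)
  have hcB : Fintype.card (Sm n T d) = ∏ l, (T + 1 - d l) := by
    rw [Fintype.card_pi]
    exact Finset.prod_congr rfl fun l _ => Fintype.card_fin _
  have hcI : Fintype.card (Bx n T) = (T + 1) ^ n := by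
    rw [Fintype.card_pi]
    simp
  let C : Type := {m : Bx n T // m ∉ Set.range emb}
  have hcard : Fintype.card {m : Bx n T // m ∈ Set.range emb} = ∏ l, (T + 1 - d l) := by
    rw [← hcB]
    exact Fintype.card_congr (Equiv.ofInjective emb hemb).symm
  have hcC : Fintype.card C + ∏ l, (T + 1 - d l) = (T + 1) ^ n := by
    rw [← hcard, ← hcI, add_comm]
    have h1 := Fintype.card_congr (Equiv.sumCompl (fun m : Bx n T => m ∈ Set.range emb))
    rw [Fintype.card_sum] at h1
    exact h1
  refine ⟨Fintype.card C, hcC, ⟨⟨?_, ?_⟩⟩⟩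
  · exact ((Equiv.ofInjective emb hemb).sumCongr (Fintype.equivFin C).symm).trans
      (Equiv.sumCompl (fun m : Bx n T => m ∈ Set.range emb))
  · intro k
    have h1 : (((Equiv.ofInjective emb hemb).sumCongr (Fintype.equivFin C).symm).trans
      (Equiv.sumCompl (fun m : Bx n T => m ∈ Set.range emb))) (Sum.inl k) = emb k := rfl
    rw [h1]
    ext l
    rfl

end Pool.Agent.H11.HV
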