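import Pool.Agent.H11.HV.Div
import Pool.Agent.H11.HV.Cnt
import Pool.Agent.H11.TH.Asy
import Pool.Agent.H11.TH.Dim

/-!
# Module Deg (MP_187c26_nt, the vertex inequality): the degree of a set over `L` containing `V`
-/

set_option autoImplicit false
set_option linter.unusedSectionVars false

open MvPolynomial

namespace Pool.Agent.H11.HV

open Pool.Agent.H11.TH

variable {K Ω : Type} [Field K] [Field Ω] [Algebra K Ω] [Algebra.IsAlgebraic K Ω] {n : ℕ}

theorem omega_ge (L : IntermediateField K Ω) [IsGalois L Ω] (V : Set (Tor Ω n))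
    (G : MvPolynomial (Fin n) Ω) (hG : Prime G) (hV : idl V = Ideal.span {G})
    (f : MvPolynomial (Fin n) L) (hf : Irreducible f)
    (hfV : MvPolynomial.map (algebraMap L Ω) f ∈ idl V) (Z : Set (Tor Ω n)) (d : ℕ) (δ : ℝ)
    (hZ : ClosedOver L Z) (hne : Z ≠ Set.univ) (hd : Equidim Z d) (hdeg : HasDeg Z d δ)
    (hVZ : V ⊆ Z) :
    (∑ l, (((MvPolynomial.map (algebraMap L Ω) f).degreeOf l : ℕ) : ℝ)) ≤
      δ ^ (1 / ((n : ℝ) - d)) := by
  classical
  obtain ⟨F, hF⟩ : ∃ F, F = MvPolynomial.map (algebraMap L Ω) f := ⟨_, rfl⟩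
  have hF0 : F ≠ 0 := by
    rw [hF]
    intro h
    exact hf.ne_zero ((map_injective (algebraMap L Ω) (algebraMap L Ω).injective)
      (by rw [h, map_zero]))
  have hδ0 : 0 ≤ δ := ge_of_tendsto' hdeg fun m => by positivity
  rw [← hF]
  obtain ⟨c, hc⟩ : ∃ c, c = ∑ l, F.degreeOf l := ⟨_, rfl⟩
  have hcs : (∑ l, ((F.degreeOf l : ℕ) : ℝ)) = (c : ℝ) := by
    rw [hc]
    push_cast
    rfl
  rw [hcs]
  by_cases hc0 : c = 0
  · rw [hc0, Nat.cast_zero]
    exact Real.rpow_nonneg hδ0 _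
  have hn := dim_lt L Z hZ hne d hd
  obtain ⟨h2, h3⟩ := asy n d 1 c c hn (by omega) (fun m => Module.finrank Ω (secs Z m))
    (fun m hm => by
      rw [one_mul]
      have h1 := secs_count Z F hF0 (fun p hp => by
        rw [hF]
        exact dvd_of_closed L V G hG hV f hf hfV Z hZ hVZ p hp) m (by rw [← hc]; exact hm)
      rw [← hc] at h1
      exact h1) δ hdeg
  have h4 : (n : ℝ) - d = 1 := by
    have h5 : n = d + 1 := by omega
    rw [h5]
    push_cast
    ring
  rw [h4, div_one, Real.rpow_one]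
  simpa using h3

end Pool.Agent.H11.HV
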