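import Pool.Agent.H11.HV.Phi
import Pool.Agent.H11.TH.Cnj
import Pool.Agent.H4.RR.AbsHeight

/-!
# Module Div (MP_187c26_nt, the vertex inequality): polynomials vanishing on conjugates and on small zeros

`F = map f`, `f` over `L` irreducible, `F ∈ idl V = span {G}`, `G` prime. For `σ : Ω ≃ₐ[L] Ω` let `σ' = σ.restrictScalars K`.
* `dvd_of_conj`: if `p` vanishes on all `mv σ' '' V`, then `p ∈ idl (mv σ' '' V) = span {map σ' G}` (`idl_mv`), so
  `map σ G ∣ p`, and `conj_dvd` gives `F ∣ p`.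
* `dvd_of_closed`: `V ⊆ Z`, `Z` closed over `L`: `mv σ' '' V ⊆ Z` (`closed_mv`).
* `dvd_of_small`: for `x ∈ V`, `ht x ≤ θ`, the point `mv σ' x` is a zero of `F` (`F` has coefficients in `L`:
  `aeval (crd (mv σ' x)) F = σ (aeval (crd x) F)`, compare `closed_mv` and `cnj_eval` in the file TH/Cnj) and
  `ht (mv σ' x) = ht x` (`absLogHeight_eq_of_minpoly_eq`: conjugate numbers have the same minimal polynomial over `ℚ`,
  `σ` is a `ℚ`-algebra automorphism, `minpoly.algEquiv_eq` or `minpoly.algHom_eq`). So `map (σ'⁻¹) p` vanishes at `x`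
  for all small `x ∈ V`, hence on `V` (`hθ`), so `p` vanishes on `mv σ' '' V`: use `dvd_of_conj`.
-/

set_option autoImplicit false
set_option linter.unusedSectionVars false

open MvPolynomial

namespace Pool.Agent.H11.HV

open Pool.Agent.H11.TH

variable {K Ω : Type} [Field K] [Field Ω] [Algebra K Ω] {n : ℕ}

private theorem cnj_eval' (σ : Ω ≃ₐ[K] Ω) (x : Tor Ω n) (p : MvPolynomial (Fin n) Ω) :
    aeval (crd (mv σ x)) (MvPolynomial.map (σ : Ω →+* Ω) p) = σ (aeval (crd x) p) := by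
  induction p using MvPolynomial.induction_on with
  | C a =>
    rw [MvPolynomial.map_C, aeval_C, aeval_C]
    rfl
  | add p q hp hq => rw [map_add, map_add, hp, hq, map_add, map_add]
  | mul_X p i hp =>
    rw [map_mul, map_mul, hp, MvPolynomial.map_X, aeval_X, map_mul, map_mul, aeval_X]
    rfl

private theorem map_symm' (σ : Ω ≃ₐ[K] Ω) (p : MvPolynomial (Fin n) Ω) :
    MvPolynomial.map (σ : Ω →+* Ω) (MvPolynomial.map (σ.symm : Ω →+* Ω) p) = p := by
  rw [MvPolynomial.map_map]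
  have h : (σ : Ω →+* Ω).comp (σ.symm : Ω →+* Ω) = RingHom.id Ω := by
    ext a
    exact σ.apply_symm_apply a
  rw [h, MvPolynomial.map_id]

private theorem ht_mv [CharZero Ω] (hint : ∀ z : Ω, IsIntegral ℚ z) (σ : Ω ≃ₐ[K] Ω)
    (x : Tor Ω n) : ht (mv σ x) = ht x := by
  unfold ht
  refine Finset.sum_congr rfl fun l _ => ?_
  have h1 : crd (mv σ x) l = (σ : Ω →+* Ω).toRatAlgHom (crd x l) := rfl
  rw [h1]
  refine (Pool.Agent.H4.RR.absLogHeight_eq_of_minpoly_eq Ω _ _ (hint _) ?_).symm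
  exact (minpoly.algHom_eq (σ : Ω →+* Ω).toRatAlgHom (RingHom.injective _) (crd x l)).symm

theorem dvd_of_conj (L : IntermediateField K Ω) [IsGalois L Ω] (V : Set (Tor Ω n))
    (G : MvPolynomial (Fin n) Ω) (hG : Prime G) (hV : idl V = Ideal.span {G})
    (f : MvPolynomial (Fin n) L) (hf : Irreducible f)
    (hfV : MvPolynomial.map (algebraMap L Ω) f ∈ idl V) (p : MvPolynomial (Fin n) Ω)
    (hp : ∀ σ : Ω ≃ₐ[K] Ω, (∀ z ∈ L, σ z = z) → ∀ x ∈ V, aeval (crd (mv σ x)) p = 0) :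
    MvPolynomial.map (algebraMap L Ω) f ∣ p := by
  have hGf : G ∣ MvPolynomial.map (algebraMap L Ω) f := by
    rw [hV, Ideal.mem_span_singleton] at hfV
    exact hfV
  refine conj_dvd G hG f hf hGf p fun σ => ?_
  have h1 := idl_mv (σ.restrictScalars K) V G hV
  have h2 : p ∈ idl (mv (σ.restrictScalars K) '' V) := by
    unfold idl
    rw [mem_vanishingIdeal_iff]
    rintro _ ⟨_, ⟨x, hx, rfl⟩, rfl⟩
    exact hp (σ.restrictScalars K) (fun z hz => σ.commutes ⟨z, hz⟩) x hx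
  rw [h1, Ideal.mem_span_singleton] at h2
  exact h2

theorem dvd_of_closed (L : IntermediateField K Ω) [IsGalois L Ω] (V : Set (Tor Ω n))
    (G : MvPolynomial (Fin n) Ω) (hG : Prime G) (hV : idl V = Ideal.span {G})
    (f : MvPolynomial (Fin n) L) (hf : Irreducible f)
    (hfV : MvPolynomial.map (algebraMap L Ω) f ∈ idl V) (Z : Set (Tor Ω n))
    (hZ : ClosedOver L Z) (hVZ : V ⊆ Z) (p : MvPolynomial (Fin n) Ω) (hp : p ∈ idl Z) :
    MvPolynomial.map (algebraMap L Ω) f ∣ p := by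
  refine dvd_of_conj L V G hG hV f hf hfV p fun σ hσ x hx => ?_
  have h1 : mv σ x ∈ Z := closed_mv L Z hZ σ hσ ⟨x, hVZ hx, rfl⟩
  unfold idl at hp
  rw [mem_vanishingIdeal_iff] at hp
  exact hp _ ⟨_, h1, rfl⟩

theorem dvd_of_small [CharZero Ω] (hint : ∀ z : Ω, IsIntegral ℚ z) (L : IntermediateField K Ω)
    [IsGalois L Ω] (V : Set (Tor Ω n))
    (G : MvPolynomial (Fin n) Ω) (hG : Prime G) (hV : idl V = Ideal.span {G})
    (f : MvPolynomial (Fin n) L) (hf : Irreducible f)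
    (hfV : MvPolynomial.map (algebraMap L Ω) f ∈ idl V) (θ : ℝ)
    (hθ : idl {x | x ∈ V ∧ ht x ≤ θ} ≤ idl V) (p : MvPolynomial (Fin n) Ω)
    (hp : ∀ x : Tor Ω n, aeval (crd x) (MvPolynomial.map (algebraMap L Ω) f) = 0 → ht x ≤ θ →
      aeval (crd x) p = 0) :
    MvPolynomial.map (algebraMap L Ω) f ∣ p := by
  refine dvd_of_conj L V G hG hV f hf hfV p fun σ hσ x hx => ?_
  have hF : MvPolynomial.map (σ : Ω →+* Ω) (MvPolynomial.map (algebraMap L Ω) f) =
      MvPolynomial.map (algebraMap L Ω) f := by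
    rw [MvPolynomial.map_map]
    have hc : (σ : Ω →+* Ω).comp (algebraMap L Ω) = algebraMap L Ω :=
      RingHom.ext fun z => hσ _ z.2
    rw [hc]
  have hzero : ∀ y ∈ V, aeval (crd (mv σ y)) (MvPolynomial.map (algebraMap L Ω) f) = 0 := by
    intro y hy
    rw [← hF, cnj_eval']
    unfold idl at hfV
    rw [mem_vanishingIdeal_iff] at hfV
    rw [hfV _ ⟨y, hy, rfl⟩, map_zero]
  have hmem : MvPolynomial.map (σ.symm : Ω →+* Ω) p ∈ idl {x | x ∈ V ∧ ht x ≤ θ} := by
    unfold idl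
    rw [mem_vanishingIdeal_iff]
    rintro _ ⟨y, ⟨hy, hyθ⟩, rfl⟩
    have h1 := cnj_eval' σ y (MvPolynomial.map (σ.symm : Ω →+* Ω) p)
    rw [map_symm' σ p, hp _ (hzero y hy) (by rw [ht_mv hint]; exact hyθ)] at h1
    exact (map_eq_zero_iff σ σ.injective).1 h1.symm
  have h2 := hθ hmem
  unfold idl at h2
  rw [mem_vanishingIdeal_iff] at h2
  have h3 := cnj_eval' σ x (MvPolynomial.map (σ.symm : Ω →+* Ω) p)
  rw [map_symm' σ p, h2 _ ⟨x, hx, rfl⟩, map_zero] at h3
  exact h3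

end Pool.Agent.H11.HV
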