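import Pool.Agent.H4.RR.AbsHeight

/-!
# Module HtD (MP_187c26_nt, the vertex inequality): the height of a quotient of two monomial determinants

Proof. All `P j l` are algebraic over `ℚ` (`hint`); let `E ⊆ Ω` be the field generated over `ℚ` by them, a number field
(`IntermediateField.adjoin ℚ` of a finite set of algebraic elements), `P j l = ι (p j l)`. Both determinants are images
`ι A`, `ι B` of the corresponding determinants over `E`. `absLogHeight_eq` (file AbsHeight):
`absLogHeight₁ (ι z) = logHeight₁ z / [E : ℚ]`. So it is enough to prove in `E`, `B ≠ 0`, `r = [E : ℚ] =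
totalWeight E` (`NumberField.totalWeight_eq_finrank`):
`logHeight₁ (A / B) ≤ r (log 2 + log H!) + T ∑ j, ∑ l, logHeight₁ (p j l)`.
`logHeight₁ (A / B) = logHeight ![A, B]` (`logHeight₁_div_eq_logHeight`). By `Matrix.det_apply'`
`A = ∑ σ, sign σ * z (inl σ)`, `B = ∑ σ, sign σ * z (inr σ)` with `z (inl σ) = ∏ j, ∏ l, p j l ^ (a (σ j) l)`,
`z (inr σ) = ∏ j, ∏ l, p j l ^ (b (σ j) l)`, `z : Perm (Fin H) ⊕ Perm (Fin H) → E`. So `![A, B]` is the image of `z` under a
linear map with coefficients `0, 1, -1`: `Height.mulHeight_linearMap_apply_le` (file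
`Mathlib/NumberTheory/Height/MvPolynomial.lean`) gives `mulHeight ![A, B] ≤ (2 H!)^r * mulHeight z` (the height of a
nonzero vector with entries `0, 1, -1` is `1`). And `z` is `y ∘ f`, where `y m = ∏ (j, l), p j l ^ (m (j, l))` for
`m : (Fin H × Fin n) → Fin (T + 1)`: `mulHeight_comp_le`, and `mulHeight_fun_prod_eq` with the vectors
`k ↦ p j l ^ k`, `k : Fin (T + 1)` (not zero: the entry at `0` is `1`), whose height is at most `mulHeight₁ (p j l) ^ T`
(at every absolute value `max_k |p|^k ≤ max (|p|, 1) ^ T`; or: `mulHeight_pow` for `![p, 1] ^ T` after a linear change,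
or directly `mulHeight_eq`, `mulHeight₁_eq`).
-/

set_option autoImplicit false
set_option linter.unusedSectionVars false

open NumberField

namespace Pool.Agent.H11.HV

section fld

variable {E : Type} [Field E] [NumberField E]

open Height

/-- a power as a product over `Fin T` -/
private theorem pow_prod (T k : ℕ) (hk : k ≤ T) (z : E) :
    ∏ t : Fin T, (![z, 1] : Fin 2 → E) (if (t : ℕ) < k then 0 else 1) = z ^ k := by
  have h1 : ∀ t : Fin T, (![z, 1] : Fin 2 → E) (if (t : ℕ) < k then 0 else 1) =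
      (fun t : ℕ => if t < k then z else 1) t := by
    intro t
    by_cases h : (t : ℕ) < k <;> simp [h]
  rw [Finset.prod_congr rfl fun t _ => h1 t,
    Fin.prod_univ_eq_prod_range (fun t : ℕ => if t < k then z else 1) T]
  rw [← Finset.prod_subset (Finset.range_subset_range.2 hk)]
  · rw [Finset.prod_congr rfl (g := fun _ => z), Finset.prod_const, Finset.card_range]
    intro t ht
    rw [if_pos (Finset.mem_range.1 ht)]
  · intro t _ ht
    rw [if_neg (fun h => ht (Finset.mem_range.2 h))]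

/-- the height of the vector of the monomials -/
private theorem ht_mon {α ι : Type} [Fintype α] [DecidableEq α] [Finite ι] (T : ℕ) (q : α → E) (m : ι → α → Fin (T + 1)) :
    mulHeight (fun i : ι => ∏ a, q a ^ (m i a : ℕ)) ≤ ∏ a, mulHeight₁ (q a) ^ T := by
  classical
  have h1 : (fun i : ι => ∏ a, q a ^ (m i a : ℕ)) =
      (fun I : (x : α × Fin T) → Fin 2 => ∏ x, (![q x.1, 1] : Fin 2 → E) (I x)) ∘
        (fun (i : ι) (x : α × Fin T) => if (x.2 : ℕ) < (m i x.1 : ℕ) then 0 else 1) := by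
    funext i
    rw [Function.comp_apply, Fintype.prod_prod_type]
    refine Finset.prod_congr rfl fun a _ => ?_
    exact (pow_prod T _ (Nat.le_of_lt_succ (m i a).2) (q a)).symm
  rw [h1]
  refine (mulHeight_comp_le _ _).trans ?_
  rw [mulHeight_fun_prod_eq (x := fun x : α × Fin T => (![q x.1, 1] : Fin 2 → E)) (fun x => by
    intro h
    have := congrFun h 1
    simp at this), Fintype.prod_prod_type]
  refine le_of_eq (Finset.prod_congr rfl fun a _ => ?_)
  show ∏ _y : Fin T, mulHeight ![q a, 1] = mulHeight₁ (q a) ^ T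
  rw [Finset.prod_const, Finset.card_univ, Fintype.card_fin, mulHeight₁_eq_mulHeight]

/-- the height of a matrix with entries `0`, `1`, `-1` -/
private theorem ht_sign {ι : Type} [Finite ι] (C : ι → E) (hC : ∀ i, C i = 0 ∨ C i = 1 ∨ C i = -1) : mulHeight C ≤ 1 := by
  rcases eq_or_ne C 0 with h | h
  · rw [h, mulHeight_zero]
  · obtain ⟨j, hj⟩ := Function.ne_iff.1 h
    have : Nonempty ι := ⟨j⟩
    have hv : ∀ (v : AbsoluteValue E ℝ), ⨆ i, v (C i) = 1 := by
      intro v
      refine le_antisymm (ciSup_le fun i => ?_) ?_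
      · rcases hC i with h1 | h1 | h1 <;> rw [h1] <;> simp
      · have h2 : v (C j) = 1 := by
          rcases hC j with h1 | h1 | h1
          · exact absurd h1 hj
          · rw [h1, map_one]
          · rw [h1, map_neg_eq_map, map_one]
        rw [← h2]
        exact Finite.le_ciSup (fun i => v (C i)) j
    rw [Height.mulHeight_eq h]
    simp [hv]

private theorem ht_det_fld {n T H : ℕ} (a b : Fin H → Fin n → Fin (T + 1)) (q : Fin H → Fin n → E) :
    logHeight₁ ((Matrix.of fun i j => ∏ l, q j l ^ (a i l : ℕ)).det /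
        (Matrix.of fun i j => ∏ l, q j l ^ (b i l : ℕ)).det) ≤
      Module.finrank ℚ E * (Real.log 2 + Real.log (H.factorial : ℝ)) + T * ∑ j, ∑ l, logHeight₁ (q j l) := by
  classical
  let z : Equiv.Perm (Fin H) ⊕ Equiv.Perm (Fin H) → E := fun i =>
    ∏ x : Fin H × Fin n, q x.1 x.2 ^ ((Sum.elim (fun σ => a (σ x.1) x.2) (fun σ => b (σ x.1) x.2) i : Fin (T + 1)) : ℕ)
  let C : Fin 2 × (Equiv.Perm (Fin H) ⊕ Equiv.Perm (Fin H)) → E := fun y =>
    Sum.elim (fun σ : Equiv.Perm (Fin H) => if y.1 = 0 then ((Equiv.Perm.sign σ : ℤ) : E) else 0)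
      (fun σ : Equiv.Perm (Fin H) => if y.1 = 0 then 0 else ((Equiv.Perm.sign σ : ℤ) : E)) y.2
  have hdet : ∀ c : Fin H → Fin n → Fin (T + 1), (Matrix.of fun i j => ∏ l, q j l ^ (c i l : ℕ)).det =
      ∑ σ : Equiv.Perm (Fin H), ((Equiv.Perm.sign σ : ℤ) : E) * ∏ x : Fin H × Fin n, q x.1 x.2 ^ (c (σ x.1) x.2 : ℕ) := by
    intro c
    rw [Matrix.det_apply']
    refine Finset.sum_congr rfl fun σ _ => ?_
    rw [Fintype.prod_prod_type]
    rfl
  have hvec : (![(Matrix.of fun i j => ∏ l, q j l ^ (a i l : ℕ)).det,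
      (Matrix.of fun i j => ∏ l, q j l ^ (b i l : ℕ)).det] : Fin 2 → E) = fun j => ∑ i, C (j, i) * z i := by
    funext j
    rw [Fintype.sum_sum_type]
    fin_cases j
    · show (Matrix.of fun i j => ∏ l, q j l ^ (a i l : ℕ)).det = _
      rw [hdet a]
      simp [C, z]
    · show (Matrix.of fun i j => ∏ l, q j l ^ (b i l : ℕ)).det = _
      rw [hdet b]
      simp [C, z]
  have hsgn : ∀ σ : Equiv.Perm (Fin H), ((Equiv.Perm.sign σ : ℤ) : E) = 1 ∨ ((Equiv.Perm.sign σ : ℤ) : E) = -1 := by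
    intro σ
    rcases Int.units_eq_one_or (Equiv.Perm.sign σ) with h | h <;> rw [h] <;> simp
  have hC : mulHeight C ≤ 1 := by
    refine ht_sign C ?_
    rintro ⟨j, (σ | σ)⟩
    · show (if j = 0 then ((Equiv.Perm.sign σ : ℤ) : E) else 0) = 0 ∨ (if j = 0 then ((Equiv.Perm.sign σ : ℤ) : E) else 0) = 1 ∨
        (if j = 0 then ((Equiv.Perm.sign σ : ℤ) : E) else 0) = -1
      split_ifs
      · exact Or.inr (hsgn σ)
      · exact Or.inl rfl
    · show (if j = 0 then 0 else ((Equiv.Perm.sign σ : ℤ) : E)) = 0 ∨ (if j = 0 then 0 else ((Equiv.Perm.sign σ : ℤ) : E)) = 1 ∨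
        (if j = 0 then 0 else ((Equiv.Perm.sign σ : ℤ) : E)) = -1
      split_ifs
      · exact Or.inl rfl
      · exact Or.inr (hsgn σ)
  have hz : mulHeight z ≤ ∏ x : Fin H × Fin n, mulHeight₁ (q x.1 x.2) ^ T :=
    ht_mon T (fun x : Fin H × Fin n => q x.1 x.2)
      (fun i x => Sum.elim (fun σ : Equiv.Perm (Fin H) => a (σ x.1) x.2)
        (fun σ : Equiv.Perm (Fin H) => b (σ x.1) x.2) i)
  have hcard : (Nat.card (Equiv.Perm (Fin H) ⊕ Equiv.Perm (Fin H)) : ℝ) = 2 * (H.factorial : ℝ) := by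
    rw [Nat.card_eq_fintype_card, Fintype.card_sum, Fintype.card_perm, Fintype.card_fin]
    push_cast
    ring
  have hmain := mulHeight_linearMap_apply_le C z
  rw [← hvec, hcard, ← mulHeight₁_div_eq_mulHeight, NumberField.totalWeight_eq_finrank] at hmain
  have hf : (0 : ℝ) < (H.factorial : ℝ) := by exact_mod_cast Nat.factorial_pos H
  have hpos : ∀ x : Fin H × Fin n, 0 < mulHeight₁ (q x.1 x.2) := fun x => mulHeight₁_pos _
  have h2 : mulHeight₁ ((Matrix.of fun i j => ∏ l, q j l ^ (a i l : ℕ)).det /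
        (Matrix.of fun i j => ∏ l, q j l ^ (b i l : ℕ)).det) ≤
      (2 * (H.factorial : ℝ)) ^ Module.finrank ℚ E * ∏ x : Fin H × Fin n, mulHeight₁ (q x.1 x.2) ^ T := by
    refine hmain.trans ?_
    have h3 : (2 * (H.factorial : ℝ)) ^ Module.finrank ℚ E * mulHeight C ≤ (2 * (H.factorial : ℝ)) ^ Module.finrank ℚ E :=
      mul_le_of_le_one_right (by positivity) hC
    exact mul_le_mul h3 hz (mulHeight_pos _).le (by positivity)
  have h4 : 0 < ∏ x : Fin H × Fin n, mulHeight₁ (q x.1 x.2) ^ T := Finset.prod_pos fun x _ => pow_pos (hpos x) T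
  have h5 := Real.log_le_log (mulHeight₁_pos _) h2
  rw [Real.log_mul (by positivity) h4.ne', Real.log_pow, Real.log_mul two_ne_zero hf.ne', Real.log_prod (fun x _ => (pow_pos (hpos x) T).ne')] at h5
  rw [logHeight₁_eq_log_mulHeight₁]
  refine h5.trans (le_of_eq ?_)
  congr 1
  rw [Fintype.sum_prod_type, Finset.mul_sum]
  refine Finset.sum_congr rfl fun j _ => ?_
  rw [Finset.mul_sum]
  refine Finset.sum_congr rfl fun l _ => ?_
  rw [Real.log_pow, logHeight₁_eq_log_mulHeight₁]

end fld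

theorem ht_det {Ω : Type} [Field Ω] [CharZero Ω] (hint : ∀ z : Ω, IsIntegral ℚ z) {n T H : ℕ}
    (a b : Fin H → Fin n → Fin (T + 1)) (P : Fin H → Fin n → Ω)
    (hB : (Matrix.of fun i j => ∏ l, P j l ^ (b i l : ℕ)).det ≠ 0) :
    absLogHeight₁ ((Matrix.of fun i j => ∏ l, P j l ^ (a i l : ℕ)).det /
        (Matrix.of fun i j => ∏ l, P j l ^ (b i l : ℕ)).det) ≤
      T * ∑ j, ∑ l, absLogHeight₁ (P j l) + (Real.log 2 + Real.log (H.factorial : ℝ)) := by
  classical
  let S : Finset Ω := Finset.univ.image fun x : Fin H × Fin n => P x.1 x.2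
  have hfd : FiniteDimensional ℚ (IntermediateField.adjoin ℚ (S : Set Ω)) :=
    IntermediateField.finiteDimensional_adjoin fun x _ => hint x
  let E := IntermediateField.adjoin ℚ (S : Set Ω)
  have : NumberField E := {}
  let ι : E →+* Ω := algebraMap E Ω
  have hmem : ∀ j l, P j l ∈ E := fun j l =>
    IntermediateField.subset_adjoin ℚ _ (Finset.mem_coe.2 (Finset.mem_image.2 ⟨(j, l), Finset.mem_univ _, rfl⟩))
  let q : Fin H → Fin n → E := fun j l => ⟨P j l, hmem j l⟩
  have hq : ∀ j l, ι (q j l) = P j l := fun j l => rfl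
  have hdet : ∀ c : Fin H → Fin n → Fin (T + 1), ι (Matrix.of fun i j => ∏ l, q j l ^ (c i l : ℕ)).det =
      (Matrix.of fun i j => ∏ l, P j l ^ (c i l : ℕ)).det := by
    intro c
    rw [RingHom.map_det]
    congr 1
    ext i j
    simp [hq]
  rw [← hdet a, ← hdet b, ← map_div₀, Pool.Agent.H4.RR.absLogHeight_eq E Ω ι]
  have h1 : ∀ j l, absLogHeight₁ (P j l) = Height.logHeight₁ (q j l) / Module.finrank ℚ E := fun j l =>
    Pool.Agent.H4.RR.absLogHeight_eq E Ω ι (q j l)
  have hr : (0 : ℝ) < Module.finrank ℚ E := by exact_mod_cast Module.finrank_pos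
  rw [div_le_iff₀ hr]
  refine (ht_det_fld a b q).trans (le_of_eq ?_)
  simp only [h1, ← Finset.sum_div]
  field_simp
  ring

end Pool.Agent.H11.HV
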