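import Pool.Agent.H11.HV.Defs

/-!
# Module Ind (MP_187c26_nt, the vertex inequality): points with nonzero determinant

Proof. Let `g i : S → Ω`, `x ↦ ∏ l, x l ^ (ev.e (inr i) l)`. Claim: linearly independent over `Ω`. Let
`∑ i, c i * g i = 0` on `S`, `p = ∑ i, monomial (fs (ev.e (inr i))) (c i)`. Then `p` vanishes on `S`, so `p = F * q` (`hS`).
Suppose `p ≠ 0`, so `q ≠ 0`. `degreeOf l p ≤ T`, and `degreeOf l p = degreeOf l F + degreeOf l q`
(`MvPolynomial.degreeOf_mul_eq`, a domain), so `degreeOf l q + d l ≤ T`. Let `lam` be as in `IsVtx F v` and `k` an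
element of `q.support` with `∑ lam k` minimal (`Finset.exists_min_image`). Then `(F * q).coeff (v + k) = F.coeff v * q.coeff k ≠ 0`
(`coeff_mul`: all other pairs `(a, b)` with `a + b = v + k`, `a ∈ F.support`, `b ∈ q.support` have `∑ lam a > ∑ lam v` and
`∑ lam b ≥ ∑ lam k`). `k l < T + 1 - d l`, so `k = fb k'`, `v + k = fs (ev.e (inl k'))` (`ev.he`), which is not one of the
`fs (ev.e (inr i))` (`fs_inj`, `ev.e` injective): `p.coeff (v + k) = 0`, a contradiction. So `p = 0` and all `c i = 0`.
The vectors `(g i x)_i`, `x ∈ S`, span `Fin H → Ω`: otherwise some nonzero linear form `c` is zero on all of them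
(`Submodule.exists_le_ker_of_lt_top` or `Submodule.exists_dual_map_eq_bot...`), against the claim. A spanning family
contains a basis (`exists_linearIndependent`, `Module.finrank = H`), which gives `H` points `P j ∈ S` with linearly
independent vectors, i.e. a nonzero determinant (`Matrix.linearIndependent_rows_iff_isUnit`, `det_transpose`).
-/

set_option autoImplicit false
set_option linter.unusedSectionVars false

open MvPolynomial

namespace Pool.Agent.H11.HV

/-- the weights multiply: the product has the coefficient at the sum of the two minimal exponents -/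
private theorem coeff_top {Ω : Type} [Field Ω] {n : ℕ} (F q : MvPolynomial (Fin n) Ω)
    (v k : Fin n →₀ ℕ) (lam : Fin n → ℤ)
    (hv : ∀ m ∈ F.support, m ≠ v → ∑ l, lam l * (v l : ℤ) < ∑ l, lam l * (m l : ℤ))
    (hk : ∀ m ∈ q.support, ∑ l, lam l * (k l : ℤ) ≤ ∑ l, lam l * (m l : ℤ)) :
    (F * q).coeff (v + k) = F.coeff v * q.coeff k := by
  classical
  rw [coeff_mul]
  refine (Finset.sum_eq_single (v, k) ?_ ?_)
  · rintro ⟨a, b⟩ hab hne
    rw [Finset.HasAntidiagonal.mem_antidiagonal] at hab
    simp only at hab ⊢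
    by_cases ha : a ∈ F.support
    · by_cases hb : b ∈ q.support
      · exfalso
        have hav : a ≠ v := by
          rintro rfl
          exact hne (by rw [add_left_cancel hab])
        have h1 := hv a ha hav
        have h2 := hk b hb
        have h3 : ∑ l, lam l * (a l : ℤ) + ∑ l, lam l * (b l : ℤ) =
            ∑ l, lam l * (v l : ℤ) + ∑ l, lam l * (k l : ℤ) := by
          rw [← Finset.sum_add_distrib, ← Finset.sum_add_distrib]
          refine Finset.sum_congr rfl fun l _ => ?_
          have h4 : a l + b l = v l + k l := by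
            have := DFunLike.congr_fun hab l
            simpa using this
          rw [← mul_add, ← mul_add]
          congr 1
          exact_mod_cast h4
        linarith
      · rw [notMem_support_iff.1 hb, mul_zero]
    · rw [notMem_support_iff.1 ha, zero_mul]
  · intro h
    exact absurd ((Finset.HasAntidiagonal.mem_antidiagonal (a := (v, k)) (n := v + k)).2 (Eq.refl (v + k))) h

private theorem indep {Ω : Type} [Field Ω] {n T H : ℕ} (d : Fin n → ℕ)
    (F : MvPolynomial (Fin n) Ω) (hF : F ≠ 0) (hd : ∀ l, F.degreeOf l = d l) (v : Fin n →₀ ℕ)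
    (hv : IsVtx F v) (ev : Ix n T H d v) (S : Set (Fin n → Ω))
    (hS : ∀ p : MvPolynomial (Fin n) Ω, (∀ x ∈ S, aeval x p = 0) → F ∣ p)
    (c : Fin H → Ω) (hc : ∀ x ∈ S, ∑ i, c i * ∏ l, x l ^ (ev.e (Sum.inr i) l : ℕ) = 0) : c = 0 := by
  classical
  set p : MvPolynomial (Fin n) Ω := ∑ i, monomial (fs (ev.e (Sum.inr i))) (c i) with hp
  have hcoe : ∀ i, p.coeff (fs (ev.e (Sum.inr i))) = c i := by
    intro i
    rw [hp, coeff_sum, Finset.sum_eq_single i]
    · rw [coeff_monomial, if_pos rfl]
    · intro j _ hji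
      rw [coeff_monomial, if_neg]
      intro h
      exact hji (Sum.inr_injective (ev.e.injective (fs_inj h)))
    · intro h
      exact absurd (Finset.mem_univ i) h
  have hsup : ∀ m ∈ p.support, ∃ i, m = fs (ev.e (Sum.inr i)) := by
    intro m hm
    by_contra hno
    push Not at hno
    rw [mem_support_iff] at hm
    apply hm
    rw [hp, coeff_sum]
    refine Finset.sum_eq_zero fun j _ => ?_
    rw [coeff_monomial, if_neg]
    exact fun h => hno j h.symm
  by_cases hp0 : p = 0
  · funext i
    rw [← hcoe i, hp0]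
    simp
  exfalso
  obtain ⟨q, hq⟩ := hS p (by
    intro x hx
    rw [← hc x hx, hp, map_sum]
    refine Finset.sum_congr rfl fun i _ => ?_
    rw [aeval_monomial]
    congr 1
    rw [Finsupp.prod_fintype _ _ (fun l => pow_zero _)]
    rfl)
  have hq0 : q ≠ 0 := by
    rintro rfl
    exact hp0 (by rw [hq, mul_zero])
  have hdeg : ∀ l, q.degreeOf l + d l ≤ T := by
    intro l
    have h1 : p.degreeOf l ≤ T := by
      rw [degreeOf_le_iff]
      intro m hm
      obtain ⟨i, rfl⟩ := hsup m hm
      have h2 := (ev.e (Sum.inr i) l).2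
      have h3 : (fs (ev.e (Sum.inr i))) l = (ev.e (Sum.inr i) l : ℕ) := rfl
      omega
    rw [hq, degreeOf_mul_eq hF hq0, hd l] at h1
    omega
  obtain ⟨hvs, lam, hlam⟩ := hv
  obtain ⟨k, hk, hkm⟩ := Finset.exists_min_image q.support (fun m => ∑ l, lam l * (m l : ℤ))
    (Finset.nonempty_iff_ne_empty.2 fun h => hq0 (support_eq_empty.1 h))
  have h1 := coeff_top F q v k lam hlam hkm
  have hkl : ∀ l, k l < T + 1 - d l := by
    intro l
    have h2 := monomial_le_degreeOf l hk
    have h3 := hdeg l
    omega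
  have hkb : fb (d := d) (T := T) (fun l => ⟨k l, hkl l⟩) = k := by
    ext l
    rfl
  have h2 := ev.he (fun l => ⟨k l, hkl l⟩)
  rw [hkb] at h2
  have h3 : p.coeff (v + k) ≠ 0 := by
    rw [hq, h1]
    exact mul_ne_zero (mem_support_iff.1 hvs) (mem_support_iff.1 hk)
  obtain ⟨i, hi⟩ := hsup _ (mem_support_iff.2 h3)
  rw [← h2] at hi
  have h4 := ev.e.injective (fs_inj hi)
  cases h4

theorem points_exist {Ω : Type} [Field Ω] {n T H : ℕ} (d : Fin n → ℕ)
    (F : MvPolynomial (Fin n) Ω) (hF : F ≠ 0) (hd : ∀ l, F.degreeOf l = d l) (v : Fin n →₀ ℕ)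
    (hv : IsVtx F v) (ev : Ix n T H d v) (S : Set (Fin n → Ω))
    (hS : ∀ p : MvPolynomial (Fin n) Ω, (∀ x ∈ S, aeval x p = 0) → F ∣ p) :
    ∃ P : Fin H → Fin n → Ω, (∀ j, P j ∈ S) ∧ (mx ev P).det ≠ 0 := by
  classical
  let g : (Fin n → Ω) → Fin H → Ω := fun x i => ∏ l, x l ^ (ev.e (Sum.inr i) l : ℕ)
  have hspan : Submodule.span Ω (g '' S) = ⊤ := by
    by_contra hne
    obtain ⟨f, hf0, hf⟩ := Submodule.exists_le_ker_of_lt_top _ (lt_top_iff_ne_top.2 hne)
    apply hf0
    have hfe : ∀ y : Fin H → Ω, f y = ∑ i, f (Pi.single i 1) * y i := by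
      intro y
      conv_lhs => rw [LinearMap.pi_apply_eq_sum_univ f y]
      refine Finset.sum_congr rfl fun i _ => ?_
      rw [smul_eq_mul, mul_comm]
      congr 2
      funext j
      rw [Pi.single_apply]
      by_cases hij : i = j
      · rw [if_pos hij, if_pos hij.symm]
      · rw [if_neg hij, if_neg fun h => hij h.symm]
    have hc := indep d F hF hd v hv ev S hS (fun i => f (Pi.single i 1)) (by
      intro x hx
      have h1 : f (g x) = 0 := by
        have h2 : g x ∈ LinearMap.ker f := hf (Submodule.subset_span ⟨x, hx, rfl⟩)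
        exact h2
      rw [hfe] at h1
      exact h1)
    refine LinearMap.ext fun y => ?_
    rw [hfe, LinearMap.zero_apply]
    refine Finset.sum_eq_zero fun j _ => ?_
    have h3 : f (Pi.single j 1) = 0 := congrFun hc j
    rw [h3, zero_mul]
  obtain ⟨f, hfm, hfs, hfi⟩ := Submodule.exists_fun_fin_finrank_span_eq Ω (g '' S)
  have hrank : Module.finrank Ω (Submodule.span Ω (g '' S)) = H := by
    rw [hspan, finrank_top, Module.finrank_fin_fun]
  let e : Fin H ≃ Fin (Module.finrank Ω (Submodule.span Ω (g '' S))) := finCongr hrank.symm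
  choose P hPS hPg using fun j : Fin H => hfm (e j)
  refine ⟨P, hPS, ?_⟩
  have hli : LinearIndependent Ω (mx ev P).col := by
    have h1 : (mx ev P).col = f ∘ e := by
      funext j
      rw [Function.comp_apply, ← hPg j]
      rfl
    rw [h1]
    exact hfi.comp e e.injective
  rw [Matrix.linearIndependent_cols_iff_isUnit, Matrix.isUnit_iff_isUnit_det] at hli
  exact hli.ne_zero

end Pool.Agent.H11.HV
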