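import Mathlib

/-!
# Module Lim (MP_187c26_nt, the vertex inequality): the limit `T → ∞` (Mathlib only)

Proof. `n ≥ 1`. For `T ≥ max d`: let `M = ∏ (T + 1 - d l)`, `H = (T+1)^n - M`. `M ≥ (T + 1)^n - (∑ d l) (T+1)^(n-1)`
(induction over the factors, or Bernoulli / Weierstrass product inequality: `∏ (1 - x_l) ≥ 1 - ∑ x_l` for
`x_l = d l / (T+1) ∈ [0,1]`, `Finset.prod_one_sub...` or `one_sub_sum_le_prod_one_sub`-like lemma), so
`H ≤ (∑ d l) (T+1)^(n-1)` and `M / (T+1)^n → 1`. `log H! ≤ H log H ≤ H n log (T + 1)` (`H ≤ (T+1)^n`; `H! ≤ H^H`,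
`Nat.factorial_le_pow`). Divide the hypothesis by `(T+1)^n`:
`(M / (T+1)^n) h ≤ T (∑ d l) θ / (T+1) + log 2 / (T+1)^n + (∑ d l) n log (T+1) / (T+1)`, and let `T → ∞`
(`Real.isLittleO_log_id_atTop` or `log x / x → 0`).
-/

set_option autoImplicit false

open Filter Topology

namespace Pool.Agent.H11.HV

private theorem wei {ι : Type} (s : Finset ι) (x : ι → ℝ) (hx : ∀ l ∈ s, 0 ≤ x l ∧ x l ≤ 1) :
    0 ≤ ∏ l ∈ s, (1 - x l) ∧ 1 - ∑ l ∈ s, x l ≤ ∏ l ∈ s, (1 - x l) ∧ ∏ l ∈ s, (1 - x l) ≤ 1 := by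
  classical
  induction s using Finset.induction_on with
  | empty => simp
  | insert a s ha ih =>
    obtain ⟨h0, h1, h2⟩ := ih fun l hl => hx l (Finset.mem_insert_of_mem hl)
    obtain ⟨h3, h4⟩ := hx a (Finset.mem_insert_self a s)
    rw [Finset.prod_insert ha, Finset.sum_insert ha]
    refine ⟨mul_nonneg (by linarith) h0, ?_, ?_⟩
    · nlinarith
    · nlinarith

private theorem tend_zero : Tendsto (fun T : ℕ => Real.log ((T : ℝ) + 1) / ((T : ℝ) + 1)) atTop (𝓝 0) := by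
  have h1 : Tendsto (fun x : ℝ => Real.log x / x) atTop (𝓝 0) := by
    have := Real.isLittleO_log_id_atTop.tendsto_div_nhds_zero
    simpa using this
  exact h1.comp (tendsto_atTop_add_const_right _ _ tendsto_natCast_atTop_atTop)

private theorem log_fac (H : ℕ) : Real.log (H.factorial : ℝ) ≤ H * Real.log H := by
  rcases Nat.eq_zero_or_pos H with rfl | hH
  · simp
  · have h1 : (H.factorial : ℝ) ≤ (H : ℝ) ^ H := by exact_mod_cast Nat.factorial_le_pow H
    rw [← Real.log_pow]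
    exact Real.log_le_log (by positivity) h1

theorem lim_ineq (n : ℕ) (hn : 1 ≤ n) (d : Fin n → ℕ) (h θ : ℝ) (hh : 0 ≤ h) (hθ : 0 ≤ θ)
    (T₀ : ℕ) (H : ℕ → ℕ) (hH : ∀ T, T₀ ≤ T → H T + ∏ l, (T + 1 - d l) = (T + 1) ^ n)
    (hT : ∀ T, T₀ ≤ T → ((∏ l, (T + 1 - d l) : ℕ) : ℝ) * h ≤
      T * (H T * θ) + (Real.log 2 + Real.log ((H T).factorial : ℝ))) :
    h ≤ (∑ l, (d l : ℝ)) * θ := by
  obtain ⟨D, hD⟩ : ∃ D : ℝ, D = ∑ l, (d l : ℝ) := ⟨_, rfl⟩
  have hD0 : 0 ≤ D := by rw [hD]; positivity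
  rw [← hD]
  have key : ∀ T : ℕ, max T₀ (∑ l, d l) ≤ T → h * (1 - D * (1 / ((T : ℝ) + 1))) ≤
      D * θ + (Real.log 2 * (1 / ((T : ℝ) + 1)) + D * n * (Real.log ((T : ℝ) + 1) / ((T : ℝ) + 1))) := by
    intro T hTT
    have hT0 : T₀ ≤ T := (le_max_left _ _).trans hTT
    have hTd : ∀ l, d l ≤ T := fun l => (Finset.single_le_sum (f := d) (fun _ _ => Nat.zero_le _)
      (Finset.mem_univ l)).trans ((le_max_right _ _).trans hTT)
    obtain ⟨N, hN⟩ : ∃ N : ℝ, N = (T : ℝ) + 1 := ⟨_, rfl⟩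
    have hN1 : 1 ≤ N := by rw [hN]; have := Nat.cast_nonneg (α := ℝ) T; linarith
    have hNp : 0 < N := by linarith
    rw [← hN]
    obtain ⟨P, hP⟩ : ∃ P : ℝ, P = ((∏ l, (T + 1 - d l) : ℕ) : ℝ) := ⟨_, rfl⟩
    have h1 := hT T hT0
    rw [← hP] at h1
    have h2 : (H T : ℝ) + P = N ^ n := by
      rw [hP, hN]
      exact_mod_cast hH T hT0
    have h3 : P = N ^ n * ∏ l : Fin n, (1 - (d l : ℝ) / N) := by
      rw [hP, Nat.cast_prod]
      have e : (N : ℝ) ^ n = ∏ l : Fin n, N := by rw [Finset.prod_const, Finset.card_univ, Fintype.card_fin]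
      rw [e, ← Finset.prod_mul_distrib]
      refine Finset.prod_congr rfl fun l _ => ?_
      rw [Nat.cast_sub (by have := hTd l; omega), Nat.cast_add, Nat.cast_one, ← hN]
      field_simp
    obtain ⟨w0, w1, w2⟩ := wei Finset.univ (fun l : Fin n => (d l : ℝ) / N) (fun l _ => by
      refine ⟨by positivity, ?_⟩
      rw [div_le_one hNp]
      have := hTd l
      have h4 : (d l : ℝ) ≤ T := by exact_mod_cast this
      linarith)
    rw [← Finset.sum_div, ← hD] at w1
    have hNn : 0 < N ^ n := by positivity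
    have h5 : (1 - D / N) * N ^ n ≤ P := by
      rw [h3, mul_comm]
      exact mul_le_mul_of_nonneg_left w1 hNn.le
    have h6 : (H T : ℝ) ≤ D / N * N ^ n := by nlinarith
    have h7 : Real.log ((H T).factorial : ℝ) ≤ D / N * N ^ n * (n * Real.log N) := by
      refine (log_fac (H T)).trans ?_
      rcases Nat.eq_zero_or_pos (H T) with h0 | h0
      · rw [h0, Nat.cast_zero, zero_mul]
        have := Real.log_nonneg hN1
        positivity
      · have h8 : (H T : ℝ) ≤ N ^ n := by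
          have : 0 ≤ P := by rw [hP]; positivity
          linarith
        have h9 : Real.log (H T : ℝ) ≤ n * Real.log N := by
          rw [← Real.log_pow]
          exact Real.log_le_log (by exact_mod_cast h0) h8
        have h10 := Real.log_nonneg hN1
        calc (H T : ℝ) * Real.log (H T) ≤ H T * (n * Real.log N) := mul_le_mul_of_nonneg_left h9 (by positivity)
          _ ≤ _ := mul_le_mul_of_nonneg_right h6 (by positivity)
    have h8 : (T : ℝ) * (H T * θ) ≤ N * (D / N * N ^ n * θ) := by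
      have h9 : (T : ℝ) ≤ N := by rw [hN]; linarith
      have h10 : (H T : ℝ) * θ ≤ D / N * N ^ n * θ := mul_le_mul_of_nonneg_right h6 hθ
      calc (T : ℝ) * (H T * θ) ≤ N * (H T * θ) := mul_le_mul_of_nonneg_right h9 (by positivity)
        _ ≤ _ := mul_le_mul_of_nonneg_left h10 hNp.le
    have h9 : Real.log 2 ≤ Real.log 2 * (1 / N) * N ^ n := by
      have h10 : 1 ≤ 1 / N * N ^ n := by
        have h11 : N ≤ N ^ n := le_self_pow₀ hN1 (by omega)
        rw [div_mul_eq_mul_div, one_mul, le_div_iff₀ hNp]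
        linarith
      have h12 : 0 ≤ Real.log 2 := Real.log_nonneg (by norm_num)
      rw [mul_assoc]
      exact le_mul_of_one_le_right h12 h10
    have h10 : (1 - D / N) * N ^ n * h ≤ P * h := mul_le_mul_of_nonneg_right h5 hh
    have h11 : h * (1 - D * (1 / N)) * N ^ n ≤
        (D * θ + (Real.log 2 * (1 / N) + D * n * (Real.log N / N))) * N ^ n := by
      calc h * (1 - D * (1 / N)) * N ^ n = (1 - D / N) * N ^ n * h := by ring
        _ ≤ N * (D / N * N ^ n * θ) + (Real.log 2 * (1 / N) * N ^ n + D / N * N ^ n * (n * Real.log N)) := by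
            linarith
        _ = _ := by field_simp
    exact le_of_mul_le_mul_right h11 hNn
  have t1 : Tendsto (fun T : ℕ => 1 / ((T : ℝ) + 1)) atTop (𝓝 0) := tendsto_one_div_add_atTop_nhds_zero_nat
  have t2 : Tendsto (fun T : ℕ => h * (1 - D * (1 / ((T : ℝ) + 1)))) atTop (𝓝 (h * (1 - D * 0))) :=
    (tendsto_const_nhds.sub (t1.const_mul D)).const_mul h
  have t3 : Tendsto (fun T : ℕ => D * θ + (Real.log 2 * (1 / ((T : ℝ) + 1)) +
      D * n * (Real.log ((T : ℝ) + 1) / ((T : ℝ) + 1)))) atTop (𝓝 (D * θ + (Real.log 2 * 0 + D * n * 0))) :=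
    tendsto_const_nhds.add ((t1.const_mul _).add (tend_zero.const_mul _))
  have h1 := le_of_tendsto_of_tendsto t2 t3 (eventually_atTop.2 ⟨_, key⟩)
  rw [mul_zero, sub_zero, mul_one, mul_zero, mul_zero, add_zero, add_zero] at h1
  exact h1

end Pool.Agent.H11.HV
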