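import Pool.Agent.H11.HV.Defs

/-!
# Module Rel (MP_187c26_nt, the vertex inequality): the determinants at two vertices

Proof. (1) `det_tri`: Leibniz formula (`Matrix.det_apply`): if the product `∏ G (σ i) i` is not zero, then for all `i`
`σ i = i` or `φ (σ i) < φ i`; `∑ φ (σ i) = ∑ φ i` (`Equiv.sum_comp`), so `σ i = i` for all `i`.
(2) `det_rel`. Let `c k m` be the coefficient at `fs m` of `monomial (fb k) 1 * F` (`coeff_monomial_mul'`: it is
`F.coeff (fs m - fb k)` if `fb k ≤ fs m`, else `0`). Let `A v : Matrix (Sm ⊕ Fin H) (Bx n T)` have the rows `c k` (`inl k`)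
and the unit vectors at `ev.e (inr i)` (`inr i`), and `X : Matrix (Bx n T) (Sm ⊕ Fin H)` the columns: unit vector at
`ew.e (inl k')` (`inl k'`) and `m ↦ ∏ l, P j l ^ (m l)` (`inr j`). Then `A v * X = fromBlocks G_w 0 C (mx ev P)`,
`G_w k k' = c k (ew.e (inl k'))`: the upper right block is `aeval (P j) (monomial (fb k) 1 * F) = 0` (all exponents of
`monomial (fb k) 1 * F` are `fs m` with `m : Bx n T`, since `F.degreeOf l ≤ d l`; if `d l > T` for some `l` then `Sm` is
empty). So `det (A v * X) = det G_w * det (mx ev P)` (`Matrix.det_fromBlocks_zero₁₂`). On the other hand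
`A v * X = (A v).submatrix id ew.e * X.submatrix ew.e id`, `X.submatrix ew.e id = fromBlocks 1 * 0 (mx ew P)` has the
determinant `det (mx ew P)`, `(A v).submatrix id ew.e` is `(A v).submatrix id ev.e` with permuted columns
(`Matrix.det_permute'`), and `(A v).submatrix id ev.e = fromBlocks G_v * 0 1` has the determinant `det G_v`.
(3) `det G_v = F.coeff v ^ card Sm` by `det_tri` with `φ k = ∑ l, lam l * k l`, `lam` from `IsVtx F v`: `G_v k k'` is
`F.coeff (v + fb k' - fb k)` or `0`; if it is not zero, then `v + fb k' = m + fb k`, `m ∈ support`, and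
`∑ lam (v) ≤ ∑ lam (m)` with equality only for `m = v`, `k' = k`. The same for `w`.
-/

set_option autoImplicit false
set_option linter.unusedSectionVars false

open MvPolynomial

namespace Pool.Agent.H11.HV

/-- a matrix which is triangular with respect to a weight -/
theorem det_tri {B R : Type} [Fintype B] [DecidableEq B] [CommRing R] (G : Matrix B B R)
    (φ : B → ℤ) (h : ∀ i j, G i j ≠ 0 → i = j ∨ φ i < φ j) : G.det = ∏ i, G i i := by
  rw [Matrix.det_apply, Finset.sum_eq_single (1 : Equiv.Perm B)]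
  · simp
  · intro σ _ hσ
    have h0 : ∏ i, G (σ i) i = 0 := by
      by_contra hne
      apply hσ
      have h1 : ∀ i, G (σ i) i ≠ 0 := fun i hi => hne (Finset.prod_eq_zero (Finset.mem_univ i) hi)
      have h2 : ∀ i ∈ Finset.univ, φ (σ i) ≤ φ i := by
        intro i _
        rcases h _ _ (h1 i) with h3 | h3
        · rw [h3]
        · exact h3.le
      have h4 : ∑ i, φ (σ i) = ∑ i, φ i := Equiv.sum_comp σ φ
      have h5 := (Finset.sum_eq_sum_iff_of_le h2).1 h4
      ext i
      rcases h _ _ (h1 i) with h3 | h3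
      · exact h3
      · exact absurd (h5 i (Finset.mem_univ i)) h3.ne
    rw [h0, smul_zero]
  · intro h0
    exact absurd (Finset.mem_univ _) h0

section

variable {Ω : Type} [Field Ω] {n T H : ℕ} {d : Fin n → ℕ}

private theorem coeff_ne (F : MvPolynomial (Fin n) Ω) (a s : Fin n →₀ ℕ) (h : (monomial a (1 : Ω) * F).coeff s ≠ 0) :
    ∃ m ∈ F.support, s = m + a := by
  rw [coeff_monomial_mul'] at h
  split_ifs at h with h1
  · rw [one_mul] at h
    exact ⟨s - a, mem_support_iff.2 h, (tsub_add_cancel_of_le h1).symm⟩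
  · exact absurd rfl h

/-- the block at a vertex -/
private theorem det_G (F : MvPolynomial (Fin n) Ω) (v : Fin n →₀ ℕ) (hv : IsVtx F v) :
    (Matrix.of fun k k' : Sm n T d => (monomial (fb k) (1 : Ω) * F).coeff (v + fb k')).det =
      F.coeff v ^ (∏ l, (T + 1 - d l)) := by
  obtain ⟨-, lam, hlam⟩ := hv
  rw [det_tri _ (fun k => ∑ l, lam l * ((k l : ℕ) : ℤ))]
  · have h1 : ∀ k : Sm n T d, (Matrix.of fun k k' : Sm n T d =>
        (monomial (fb k) (1 : Ω) * F).coeff (v + fb k')) k k = F.coeff v := by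
      intro k
      rw [Matrix.of_apply, add_comm, coeff_monomial_mul, one_mul]
    rw [Finset.prod_congr rfl fun k _ => h1 k, Finset.prod_const, Finset.card_univ, Fintype.card_pi]
    congr 1
    exact Finset.prod_congr rfl fun l _ => Fintype.card_fin _
  · intro k k' h
    rw [Matrix.of_apply] at h
    obtain ⟨m, hm, hm'⟩ := coeff_ne F _ _ h
    by_cases hmv : m = v
    · left
      rw [hmv] at hm'
      exact (fb_inj (add_left_cancel hm')).symm
    · right
      have h1 := hlam m hm hmv
      have h2 : ∀ l, v l + (k' l : ℕ) = m l + (k l : ℕ) := fun l => DFunLike.congr_fun hm' l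
      have h3 : ∑ l, lam l * (v l : ℤ) + ∑ l, lam l * ((k' l : ℕ) : ℤ) =
          ∑ l, lam l * (m l : ℤ) + ∑ l, lam l * ((k l : ℕ) : ℤ) := by
        rw [← Finset.sum_add_distrib, ← Finset.sum_add_distrib]
        refine Finset.sum_congr rfl fun l _ => ?_
        have h4 : (v l : ℤ) + ((k' l : ℕ) : ℤ) = (m l : ℤ) + ((k l : ℕ) : ℤ) := by exact_mod_cast h2 l
        rw [← mul_add, ← mul_add, h4]
      linarith

/-- the values of the multiples of `F` at a zero -/
private theorem sum_zero (F : MvPolynomial (Fin n) Ω) (hd : ∀ l, F.degreeOf l ≤ d l) (k : Sm n T d) (p : Fin n → Ω)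
    (hp : aeval p F = 0) : ∑ m : Bx n T, (monomial (fb k) (1 : Ω) * F).coeff (fs m) * ∏ l, p l ^ (m l : ℕ) = 0 := by
  classical
  have h1 : aeval p (monomial (fb k) (1 : Ω) * F) = 0 := by
    rw [map_mul, hp, mul_zero]
  rw [aeval_def, eval₂_eq'] at h1
  rw [← h1]
  have h2 : ∑ m : Bx n T, (monomial (fb k) (1 : Ω) * F).coeff (fs m) * ∏ l, p l ^ (m l : ℕ) =
      ∑ s ∈ (Finset.univ : Finset (Bx n T)).image fs, (monomial (fb k) (1 : Ω) * F).coeff s * ∏ l, p l ^ s l := by
    rw [Finset.sum_image fun a _ b _ h => fs_inj h]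
    rfl
  rw [h2]
  symm
  refine Finset.sum_subset ?_ ?_
  · intro s hs
    obtain ⟨m, hm, hm'⟩ := coeff_ne F _ _ (mem_support_iff.1 hs)
    have h3 : ∀ l, s l < T + 1 := by
      intro l
      have h4 : m l ≤ d l := (monomial_le_degreeOf l hm).trans (hd l)
      have h5 := (k l).2
      have h6 : s l = m l + (k l : ℕ) := DFunLike.congr_fun hm' l
      omega
    refine Finset.mem_image.2 ⟨fun l => ⟨s l, h3 l⟩, Finset.mem_univ _, ?_⟩
    ext l
    rfl
  · intro s _ hs
    rw [notMem_support_iff.1 hs, map_zero, zero_mul]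

/-- the matrix of the multiples of `F` and of the unit vectors -/
private noncomputable def Am (F : MvPolynomial (Fin n) Ω) {v : Fin n →₀ ℕ} (ev : Ix n T H d v) :
    Matrix (Sm n T d ⊕ Fin H) (Bx n T) Ω :=
  fun a m => Sum.elim (fun k => (monomial (fb k) (1 : Ω) * F).coeff (fs m))
    (fun i => if m = ev.e (Sum.inr i) then 1 else 0) a

private noncomputable def Xm {w : Fin n →₀ ℕ} (ew : Ix n T H d w) (P : Fin H → Fin n → Ω) :
    Matrix (Bx n T) (Sm n T d ⊕ Fin H) Ω :=
  fun m b => Sum.elim (fun k => if m = ew.e (Sum.inl k) then 1 else 0) (fun j => ∏ l, P j l ^ (m l : ℕ)) b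

end

theorem det_rel {Ω : Type} [Field Ω] {n T H : ℕ} (d : Fin n → ℕ) (F : MvPolynomial (Fin n) Ω)
    (hd : ∀ l, F.degreeOf l ≤ d l) (v w : Fin n →₀ ℕ) (hv : IsVtx F v) (hw : IsVtx F w)
    (ev : Ix n T H d v) (ew : Ix n T H d w) (P : Fin H → Fin n → Ω)
    (hP : ∀ j, aeval (P j) F = 0) :
    ∃ ε : Ω, (ε = 1 ∨ ε = -1) ∧
      F.coeff v ^ (∏ l, (T + 1 - d l)) * (mx ew P).det =
        ε * (F.coeff w ^ (∏ l, (T + 1 - d l)) * (mx ev P).det) := by
  classical
  have h1 : (Am F ev * Xm ew P).det = F.coeff w ^ (∏ l, (T + 1 - d l)) * (mx ev P).det := by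
    have h2 : Am F ev * Xm ew P = Matrix.fromBlocks
        (Matrix.of fun k k' : Sm n T d => (monomial (fb k) (1 : Ω) * F).coeff (w + fb k')) 0
        (Matrix.of fun (i : Fin H) (k' : Sm n T d) => (Am F ev * Xm ew P) (Sum.inr i) (Sum.inl k')) (mx ev P) := by
      ext a b
      rcases a with k | i <;> rcases b with k' | j
      · rw [Matrix.fromBlocks_apply₁₁, Matrix.of_apply, Matrix.mul_apply]
        simp only [Am, Xm, Sum.elim_inl, mul_ite, mul_one, mul_zero, Finset.sum_ite_eq', Finset.mem_univ, if_true]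
        rw [ew.he k']
      · rw [Matrix.fromBlocks_apply₁₂, Matrix.mul_apply]
        exact sum_zero F hd k (P j) (hP j)
      · rw [Matrix.fromBlocks_apply₂₁, Matrix.of_apply]
      · rw [Matrix.fromBlocks_apply₂₂, Matrix.mul_apply]
        simp only [Am, Xm, Sum.elim_inr, ite_mul, one_mul, zero_mul, Finset.sum_ite_eq', Finset.mem_univ, if_true]
        rfl
    rw [h2, Matrix.det_fromBlocks_zero₁₂, det_G F w hw]
  have h3 : Am F ev * Xm ew P = (Am F ev).submatrix id ew.e * (Xm ew P).submatrix ew.e id := by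
    rw [Matrix.submatrix_mul_equiv, Matrix.submatrix_id_id]
  have h4 : ((Xm ew P).submatrix ew.e id).det = (mx ew P).det := by
    have h5 : (Xm ew P).submatrix ew.e id = Matrix.fromBlocks 1
        (Matrix.of fun (k : Sm n T d) (j : Fin H) => Xm ew P (ew.e (Sum.inl k)) (Sum.inr j)) 0 (mx ew P) := by
      ext a b
      rcases a with k | i <;> rcases b with k' | j
      · rw [Matrix.fromBlocks_apply₁₁, Matrix.submatrix_apply, Matrix.one_apply]
        simp only [Xm, id, Sum.elim_inl, EmbeddingLike.apply_eq_iff_eq, Sum.inl.injEq]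
      · rfl
      · rw [Matrix.fromBlocks_apply₂₁, Matrix.submatrix_apply]
        simp only [Xm, id, Sum.elim_inl, EmbeddingLike.apply_eq_iff_eq, reduceCtorEq, if_false]
        rfl
      · rfl
    rw [h5, Matrix.det_fromBlocks_zero₂₁, Matrix.det_one, one_mul]
  have h6 : ((Am F ev).submatrix id ev.e).det = F.coeff v ^ (∏ l, (T + 1 - d l)) := by
    have h5 : (Am F ev).submatrix id ev.e = Matrix.fromBlocks
        (Matrix.of fun k k' : Sm n T d => (monomial (fb k) (1 : Ω) * F).coeff (v + fb k'))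
        (Matrix.of fun (k : Sm n T d) (j : Fin H) => Am F ev (Sum.inl k) (ev.e (Sum.inr j))) 0 1 := by
      ext a b
      rcases a with k | i <;> rcases b with k' | j
      · rw [Matrix.fromBlocks_apply₁₁, Matrix.submatrix_apply, Matrix.of_apply]
        simp only [Am, id, Sum.elim_inl]
        rw [ev.he k']
      · rfl
      · rw [Matrix.fromBlocks_apply₂₁, Matrix.submatrix_apply]
        simp only [Am, id, Sum.elim_inr, EmbeddingLike.apply_eq_iff_eq, reduceCtorEq, if_false]
        rfl
      · rw [Matrix.fromBlocks_apply₂₂, Matrix.submatrix_apply, Matrix.one_apply]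
        simp only [Am, id, Sum.elim_inr, EmbeddingLike.apply_eq_iff_eq, Sum.inr.injEq]
        by_cases hij : i = j
        · subst hij; simp
        · rw [if_neg hij, if_neg (Ne.symm hij)]
    rw [h5, Matrix.det_fromBlocks_zero₂₁, Matrix.det_one, mul_one, det_G F v hv]
  have h7 : ((Am F ev).submatrix id ew.e).det =
      ((Equiv.Perm.sign (ew.e.trans ev.e.symm) : ℤˣ) : ℤ) * ((Am F ev).submatrix id ev.e).det := by
    rw [← Matrix.det_permute', Matrix.submatrix_submatrix]
    congr 2
    funext x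
    simp
  have h8 : F.coeff w ^ (∏ l, (T + 1 - d l)) * (mx ev P).det =
      ((Equiv.Perm.sign (ew.e.trans ev.e.symm) : ℤˣ) : ℤ) * F.coeff v ^ (∏ l, (T + 1 - d l)) * (mx ew P).det := by
    rw [← h1, h3, Matrix.det_mul, h4, h7, h6]
  rcases Int.units_eq_one_or (Equiv.Perm.sign (ew.e.trans ev.e.symm)) with h9 | h9
  · refine ⟨1, Or.inl rfl, ?_⟩
    rw [h8, h9]
    simp
  · refine ⟨-1, Or.inr rfl, ?_⟩
    rw [h8, h9]
    simp

end Pool.Agent.H11.HV
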