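import Pool.Agent.H11.HV.Deg
import Pool.Agent.H11.HV.Rel
import Pool.Agent.H11.HV.Ind
import Pool.Agent.H11.HV.HtD
import Pool.Agent.H11.HV.Lim
import Pool.Agent.H72.PB.HNonneg

/-!
# Module Main (MP_187c26_nt, the vertex inequality)

For every hypersurface `V` of the torus, geometrically irreducible, with equation `f` over `L`, and all vertices
`v`, `w` of the Newton polytope of `f`: `h(f_v / f_w) ≤ ω θ` for every admissible value `ω` of the obstruction
index over `L` and every `θ` such that the points of height at most `θ` are dense in `V`.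
-/

set_option autoImplicit false
set_option linter.unusedSectionVars false

open MvPolynomial NumberField

namespace Pool.Agent.H11.HV

open Pool.Agent.H11.TH Pool.Agent.H4.RR

section

variable {Ω : Type} [Field Ω] [CharZero Ω]

private theorem ht_neg (hint : ∀ z : Ω, IsIntegral ℚ z) (z : Ω) :
    absLogHeight₁ (-z) ≤ absLogHeight₁ z := by
  have h1 := absLogHeight_pow Ω (-z) (hint _) 2
  have h2 := absLogHeight_pow Ω z (hint _) 2
  rw [neg_sq, h2] at h1
  have h3 : (2 : ℝ) * absLogHeight₁ z = 2 * absLogHeight₁ (-z) := by exact_mod_cast h1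
  linarith

/-- the inequality for one `T` -/
private theorem one_T (hint : ∀ z : Ω, IsIntegral ℚ z) {n : ℕ} (F : MvPolynomial (Fin n) Ω)
    (hF : F ≠ 0) (θ : ℝ)
    (hS : ∀ p : MvPolynomial (Fin n) Ω, (∀ x : Tor Ω n, aeval (crd x) F = 0 → ht x ≤ θ →
      aeval (crd x) p = 0) → F ∣ p)
    (v w : Fin n →₀ ℕ) (hv : IsVtx F v) (hw : IsVtx F w) (T : ℕ) :
    ∃ H : ℕ, H + ∏ l, (T + 1 - F.degreeOf l) = (T + 1) ^ n ∧
      ((∏ l, (T + 1 - F.degreeOf l) : ℕ) : ℝ) * absLogHeight₁ (F.coeff v / F.coeff w) ≤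
        T * (H * θ) + (Real.log 2 + Real.log (H.factorial : ℝ)) := by
  obtain ⟨H, hH, ⟨ev⟩⟩ := ix_exists n T (fun l => F.degreeOf l) v
    (fun l => by rw [degreeOf_eq_sup]; exact Finset.le_sup (f := fun m => m l) hv.1)
  obtain ⟨H', hH', ⟨ew⟩⟩ := ix_exists n T (fun l => F.degreeOf l) w
    (fun l => by rw [degreeOf_eq_sup]; exact Finset.le_sup (f := fun m => m l) hw.1)
  obtain rfl : H' = H := by omega
  refine ⟨H', hH, ?_⟩
  obtain ⟨P, hPS, hdet⟩ := points_exist (fun l => F.degreeOf l) F hF (fun l => rfl) w hw ew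
    (crd '' {x : Tor Ω n | aeval (crd x) F = 0 ∧ ht x ≤ θ}) (fun p hp => hS p fun x h1 h2 =>
      hp _ ⟨x, ⟨h1, h2⟩, rfl⟩)
  choose x hx hxP using hPS
  obtain ⟨ε, hε, hrel⟩ := det_rel (fun l => F.degreeOf l) F (fun l => le_rfl) v w hv hw ev ew P
    (fun j => by rw [← hxP]; exact (hx j).1)
  have hv0 : F.coeff v ≠ 0 := mem_support_iff.1 hv.1
  have hw0 : F.coeff w ≠ 0 := mem_support_iff.1 hw.1
  have h1 : (F.coeff v / F.coeff w) ^ (∏ l, (T + 1 - F.degreeOf l)) =
      ε * ((mx ev P).det / (mx ew P).det) := by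
    rw [div_pow]
    field_simp
    linear_combination hrel
  have h2 : absLogHeight₁ ((F.coeff v / F.coeff w) ^ (∏ l, (T + 1 - F.degreeOf l))) ≤
      absLogHeight₁ ((mx ev P).det / (mx ew P).det) := by
    rw [h1]
    rcases hε with rfl | rfl
    · rw [one_mul]
    · rw [neg_one_mul]
      exact ht_neg hint _
  rw [absLogHeight_pow Ω _ (hint _)] at h2
  refine h2.trans ?_
  have h3 := ht_det hint (fun i l => ev.e (Sum.inr i) l) (fun i l => ew.e (Sum.inr i) l) P hdet
  refine h3.trans ?_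
  have h4 : ∑ j, ∑ l, absLogHeight₁ (P j l) ≤ H' * θ := by
    calc ∑ j, ∑ l, absLogHeight₁ (P j l) ≤ ∑ _j : Fin H', θ := by
          refine Finset.sum_le_sum fun j _ => ?_
          rw [← hxP j]
          exact (hx j).2
      _ = H' * θ := by
          rw [Finset.sum_const, Finset.card_univ, Fintype.card_fin, nsmul_eq_mul]
  have h5 : (T : ℝ) * ∑ j, ∑ l, absLogHeight₁ (P j l) ≤ T * (H' * θ) :=
    mul_le_mul_of_nonneg_left h4 (Nat.cast_nonneg _)
  linarith

end

variable {K Ω : Type} [Field K] [Field Ω] [CharZero Ω] [Algebra K Ω] [Algebra.IsAlgebraic K Ω]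
  {n : ℕ}

theorem vertex_ineq (hint : ∀ z : Ω, IsIntegral ℚ z) (L : IntermediateField K Ω) [IsGalois L Ω]
    (V : Set (Tor Ω n)) (G : MvPolynomial (Fin n) Ω) (hG : Prime G) (hV : idl V = Ideal.span {G})
    (f : MvPolynomial (Fin n) L) (hf : Irreducible f)
    (hfV : MvPolynomial.map (algebraMap L Ω) f ∈ idl V)
    (v w : Fin n →₀ ℕ) (hv : IsVtx f v) (hw : IsVtx f w)
    (Z : Set (Tor Ω n)) (d : ℕ) (δ : ℝ)
    (hZ : ClosedOver L Z) (hne : Z ≠ Set.univ) (hd : Equidim Z d) (hdeg : HasDeg Z d δ)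
    (hVZ : V ⊆ Z) (θ : ℝ) (hθ : idl {x | x ∈ V ∧ ht x ≤ θ} ≤ idl V) :
    absLogHeight₁ (((f.coeff v : L) : Ω) / ((f.coeff w : L) : Ω)) ≤
      δ ^ (1 / ((n : ℝ) - d)) * θ := by
  classical
  obtain ⟨F, hF⟩ : ∃ F, F = MvPolynomial.map (algebraMap L Ω) f := ⟨_, rfl⟩
  have hinj : Function.Injective (algebraMap L Ω) := (algebraMap L Ω).injective
  have hF0 : F ≠ 0 := by
    rw [hF]
    intro h
    exact hf.ne_zero ((map_injective (algebraMap L Ω) hinj) (by rw [h, map_zero]))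
  have hsup : F.support = f.support := by rw [hF, support_map_of_injective f hinj]
  have hvtx : ∀ u, IsVtx f u → IsVtx F u := by
    rintro u ⟨h1, lam, h2⟩
    exact ⟨by rw [hsup]; exact h1, lam, by rw [hsup]; exact h2⟩
  have hcoe : ∀ u, F.coeff u = ((f.coeff u : L) : Ω) := fun u => by rw [hF, coeff_map]; rfl
  have hS : ∀ p : MvPolynomial (Fin n) Ω, (∀ x : Tor Ω n, aeval (crd x) F = 0 → ht x ≤ θ →
      aeval (crd x) p = 0) → F ∣ p := by
    rw [hF]
    exact fun p hp => dvd_of_small hint L V G hG hV f hf hfV θ hθ p hp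
  -- `n ≥ 1`
  have hn : 1 ≤ n := by
    have := dim_lt L Z hZ hne d hd
    omega
  -- `θ ≥ 0`
  have hθ0 : 0 ≤ θ := by
    by_contra hneg
    push Not at hneg
    have h1 : {x | x ∈ V ∧ ht x ≤ θ} = (∅ : Set (Tor Ω n)) := by
      ext x
      simp only [Set.mem_ofPred_eq, Set.mem_empty_iff_false, iff_false, not_and, not_le]
      intro _
      refine lt_of_lt_of_le hneg (Finset.sum_nonneg fun l _ => ?_)
      exact Pool.Agent.H72.PB.ht_nonneg _
    rw [h1] at hθ
    have h2 : (1 : MvPolynomial (Fin n) Ω) ∈ idl (∅ : Set (Tor Ω n)) := by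
      rw [idl, mem_vanishingIdeal_iff]
      rintro _ ⟨x, hx, -⟩
      exact absurd hx (Set.notMem_empty x)
    have h3 := hθ h2
    rw [hV, Ideal.mem_span_singleton] at h3
    exact hG.not_isUnit (isUnit_of_dvd_one h3)
  have hom := omega_ge L V G hG hV f hf hfV Z d δ hZ hne hd hdeg hVZ
  choose H hH hT using fun T => one_T hint F hF0 θ hS v w (hvtx v hv) (hvtx w hw) T
  have h1 := lim_ineq n hn (fun l => F.degreeOf l)
    (absLogHeight₁ (F.coeff v / F.coeff w)) θ (Pool.Agent.H72.PB.ht_nonneg _) hθ0 0 H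
    (fun T _ => hH T) (fun T _ => hT T)
  rw [hcoe, hcoe] at h1
  refine h1.trans ?_
  rw [hF]
  exact mul_le_mul_of_nonneg_right hom hθ0

end Pool.Agent.H11.HV
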