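import Mathlib

/-!
# Module Phi (MP_187c26_nt, the vertex inequality): the product of the conjugates (Mathlib only)

Proof. `F = map f`. (1) Let `m₀ ∈ G.support`, `G' = C (G.coeff m₀)⁻¹ * G` and `O` the set of the `map σ G'`. It is finite:
a polynomial in `O` has the support of `G` and its coefficients are conjugates over `L` of those of `G'` (roots of
minimal polynomials, finitely many). All elements of `O` are prime (images of an associate of `G` under the ring
automorphisms `mapEquiv σ`), have the coefficient `1` at `m₀`, and divide `p` (hypothesis) and `F`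
(`map σ G ∣ map σ F = F`). Two associated elements of `O` are equal: the units of `MvPolynomial (Fin n) Ω` are the
constants (`MvPolynomial.isUnit_iff_eq_C_of_isReduced`), compare the coefficients at `m₀`. So `Φ = ∏ O` divides `p` and
`F` (`Finset.prod_dvd_of_isRelPrime` or induction; distinct elements are not associated primes, so relatively prime).
(2) `map σ Φ = Φ` for all `σ` (`σ` permutes `O`), so the coefficients of `Φ` are in `L` (`InfiniteGalois.mem_bot_iff_fixed`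
or `IsGalois` fixed points): `Φ = map φ`. `F = Φ * Q`, `Q` is fixed by all `σ` too (cancel `Φ ≠ 0`), `Q = map q`, and
`f = φ * q` (`map_injective`). `f` is irreducible: `φ` is not a unit (otherwise `Φ`, a multiple of a prime, would be
one), so `q` is a unit, `Q` is a unit and `F ∣ Φ ∣ p`.
-/

set_option autoImplicit false
set_option linter.unusedSectionVars false

open MvPolynomial

namespace Pool.Agent.H11.HV

private lemma fixed_mem_range {L Ω : Type} [Field L] [Field Ω] [Algebra L Ω] [IsGalois L Ω] {n : ℕ}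
    (P : MvPolynomial (Fin n) Ω) (h : ∀ σ : Ω ≃ₐ[L] Ω, MvPolynomial.map (σ : Ω →+* Ω) P = P) :
    ∃ P₀ : MvPolynomial (Fin n) L, MvPolynomial.map (algebraMap L Ω) P₀ = P := by
  have h1 : P ∈ Set.range (MvPolynomial.map (σ := Fin n) (algebraMap L Ω)) := by
    rw [MvPolynomial.mem_range_map_iff_coeffs_subset]
    intro c hc
    obtain ⟨m, hm, rfl⟩ := MvPolynomial.mem_coeffs_iff.1 (Finset.mem_coe.1 hc)
    have h2 : P.coeff m ∈ (⊥ : IntermediateField L Ω) := by
      rw [InfiniteGalois.mem_bot_iff_fixed]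
      intro σ
      have h3 := congrArg (MvPolynomial.coeff m) (h σ)
      rw [MvPolynomial.coeff_map] at h3
      exact h3
    rw [IntermediateField.mem_bot] at h2
    exact h2
  exact h1

private lemma conj_finite {L Ω : Type} [Field L] [Field Ω] [Algebra L Ω] [IsGalois L Ω] {n : ℕ}
    (G : MvPolynomial (Fin n) Ω) :
    (Set.range fun σ : Ω ≃ₐ[L] Ω => MvPolynomial.map (σ : Ω →+* Ω) G).Finite := by
  classical
  let φ : MvPolynomial (Fin n) Ω → (G.support → Ω) := fun P m => P.coeff (m : Fin n →₀ ℕ)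
  have hinj : Set.InjOn φ (Set.range fun σ : Ω ≃ₐ[L] Ω => MvPolynomial.map (σ : Ω →+* Ω) G) := by
    rintro _ ⟨σ, rfl⟩ _ ⟨τ, rfl⟩ h
    apply MvPolynomial.ext
    intro m
    by_cases hm : m ∈ G.support
    · exact congrFun h ⟨m, hm⟩
    · have h0 : G.coeff m = 0 := by simpa using hm
      simp [MvPolynomial.coeff_map, h0]
  refine Set.Finite.of_finite_image ?_ hinj
  have hpi : (Set.pi Set.univ fun m : G.support =>
      {x : Ω | (minpoly L (G.coeff (m : Fin n →₀ ℕ))).aeval x = 0}).Finite := by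
    refine Set.Finite.pi fun m => ?_
    have hne : minpoly L (G.coeff (m : Fin n →₀ ℕ)) ≠ 0 :=
      minpoly.ne_zero (Algebra.IsIntegral.isIntegral _)
    have hne' : (minpoly L (G.coeff (m : Fin n →₀ ℕ))).map (algebraMap L Ω) ≠ 0 :=
      (Polynomial.map_ne_zero_iff (algebraMap L Ω).injective).2 hne
    refine Set.Finite.subset (Polynomial.rootSet_finite (minpoly L (G.coeff (m : Fin n →₀ ℕ))) Ω) ?_
    intro x hx
    rw [Polynomial.mem_rootSet']
    exact ⟨hne', hx⟩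
  refine hpi.subset ?_
  rintro _ ⟨_, ⟨σ, rfl⟩, rfl⟩
  rw [Set.mem_pi]
  intro m _
  change (minpoly L (G.coeff (m : Fin n →₀ ℕ))).aeval
    ((MvPolynomial.map (σ : Ω →+* Ω) G).coeff (m : Fin n →₀ ℕ)) = 0
  rw [MvPolynomial.coeff_map]
  have h1 := Polynomial.aeval_algHom_apply (σ : Ω →ₐ[L] Ω) (G.coeff (m : Fin n →₀ ℕ))
    (minpoly L (G.coeff (m : Fin n →₀ ℕ)))
  rw [minpoly.aeval, map_zero] at h1
  exact h1

theorem conj_dvd {L Ω : Type} [Field L] [Field Ω] [Algebra L Ω] [IsGalois L Ω] {n : ℕ}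
    (G : MvPolynomial (Fin n) Ω) (hG : Prime G) (f : MvPolynomial (Fin n) L) (hf : Irreducible f)
    (hGf : G ∣ MvPolynomial.map (algebraMap L Ω) f) (p : MvPolynomial (Fin n) Ω)
    (hp : ∀ σ : Ω ≃ₐ[L] Ω, MvPolynomial.map (σ : Ω →+* Ω) G ∣ p) :
    MvPolynomial.map (algebraMap L Ω) f ∣ p := by
  classical
  obtain ⟨m₀, hm₀⟩ : ∃ m₀, G.coeff m₀ ≠ 0 := MvPolynomial.ne_zero_iff.1 hG.ne_zero
  obtain ⟨G', hG'⟩ : ∃ G' : MvPolynomial (Fin n) Ω, G' = MvPolynomial.C (G.coeff m₀)⁻¹ * G := ⟨_, rfl⟩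
  have hu : IsUnit (MvPolynomial.C (σ := Fin n) (G.coeff m₀)⁻¹) :=
    (IsUnit.mk0 _ (inv_ne_zero hm₀)).map MvPolynomial.C
  have hass : Associated G' G := by
    rw [hG']
    exact (associated_unit_mul_left G _ hu)
  have hc1 : G'.coeff m₀ = 1 := by
    rw [hG', MvPolynomial.coeff_C_mul, inv_mul_cancel₀ hm₀]
  have hpr : Prime G' := hass.symm.prime hG
  have hmapprime : ∀ σ : Ω ≃ₐ[L] Ω, Prime (MvPolynomial.map (σ : Ω →+* Ω) G') := by
    intro σ
    have := (MulEquiv.prime_iff (MvPolynomial.mapEquiv (Fin n) σ.toRingEquiv) (p := G')).2 hpr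
    exact this
  have hmapF : ∀ σ : Ω ≃ₐ[L] Ω, MvPolynomial.map (σ : Ω →+* Ω) (MvPolynomial.map (algebraMap L Ω) f) =
      MvPolynomial.map (algebraMap L Ω) f := by
    intro σ
    rw [MvPolynomial.map_map]
    congr 1
    congr 1
    ext x
    simp
  set O := (conj_finite (L := L) G').toFinset with hO
  have hOmem : ∀ A, A ∈ O ↔ ∃ σ : Ω ≃ₐ[L] Ω, MvPolynomial.map (σ : Ω →+* Ω) G' = A := by
    intro A
    rw [hO, Set.Finite.mem_toFinset]
    rfl
  have hOprime : ∀ A ∈ O, Prime A := by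
    intro A hA
    obtain ⟨σ, rfl⟩ := (hOmem A).1 hA
    exact hmapprime σ
  have hOc : ∀ A ∈ O, A.coeff m₀ = 1 := by
    intro A hA
    obtain ⟨σ, rfl⟩ := (hOmem A).1 hA
    rw [MvPolynomial.coeff_map, hc1]
    simp
  have hOp : ∀ A ∈ O, A ∣ p := by
    intro A hA
    obtain ⟨σ, rfl⟩ := (hOmem A).1 hA
    exact (map_dvd (MvPolynomial.map (σ : Ω →+* Ω)) hass.dvd).trans (hp σ)
  have hOF : ∀ A ∈ O, A ∣ MvPolynomial.map (algebraMap L Ω) f := by
    intro A hA
    obtain ⟨σ, rfl⟩ := (hOmem A).1 hA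
    have h1 := map_dvd (MvPolynomial.map (σ : Ω →+* Ω)) (hass.dvd.trans hGf)
    rwa [hmapF σ] at h1
  have hOrel : ∀ A ∈ O, ∀ B ∈ O, A ∣ B → A = B := by
    intro A hA B hB hAB
    obtain ⟨c, rfl⟩ := hAB
    have hcu : IsUnit c := ((hOprime _ hB).irreducible.isUnit_or_isUnit rfl).resolve_left
      (hOprime A hA).not_unit
    obtain ⟨u, hu, rfl⟩ := (MvPolynomial.isUnit_iff_eq_C_of_isReduced).1 hcu
    have h1 := hOc _ hB
    rw [mul_comm, MvPolynomial.coeff_C_mul, hOc A hA, mul_one] at h1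
    rw [h1]
    simp
  have hpair : ((O : Set (MvPolynomial (Fin n) Ω))).Pairwise
      (Function.onFun IsRelPrime (fun A : MvPolynomial (Fin n) Ω => A)) := by
    intro A hA B hB hAB
    change IsRelPrime A B
    rw [(hOprime A hA).irreducible.isRelPrime_iff_not_dvd]
    intro h
    exact hAB (hOrel A hA B hB h)
  have hΦp : (∏ A ∈ O, A) ∣ p := Finset.prod_dvd_of_isRelPrime hpair hOp
  have hΦF : (∏ A ∈ O, A) ∣ MvPolynomial.map (algebraMap L Ω) f :=
    Finset.prod_dvd_of_isRelPrime hpair hOF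
  set Φ := ∏ A ∈ O, A with hΦ
  have hΦfix : ∀ σ : Ω ≃ₐ[L] Ω, MvPolynomial.map (σ : Ω →+* Ω) Φ = Φ := by
    intro σ
    rw [hΦ, map_prod]
    have hcomp : ∀ (α β : Ω ≃ₐ[L] Ω) (A : MvPolynomial (Fin n) Ω),
        MvPolynomial.map (α : Ω →+* Ω) (MvPolynomial.map (β : Ω →+* Ω) A) =
          MvPolynomial.map ((α * β : Ω ≃ₐ[L] Ω) : Ω →+* Ω) A := by
      intro α β A
      rw [MvPolynomial.map_map]
      rfl
    have hone : ∀ A : MvPolynomial (Fin n) Ω,
        MvPolynomial.map ((1 : Ω ≃ₐ[L] Ω) : Ω →+* Ω) A = A := by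
      intro A
      exact MvPolynomial.map_id A
    refine Finset.prod_nbij' (fun A => MvPolynomial.map (σ : Ω →+* Ω) A)
      (fun A => MvPolynomial.map ((σ⁻¹ : Ω ≃ₐ[L] Ω) : Ω →+* Ω) A) ?_ ?_ ?_ ?_ ?_
    · intro A hA
      obtain ⟨τ, rfl⟩ := (hOmem A).1 hA
      rw [hOmem]
      exact ⟨σ * τ, (hcomp σ τ G').symm⟩
    · intro A hA
      obtain ⟨τ, rfl⟩ := (hOmem A).1 hA
      rw [hOmem]
      exact ⟨σ⁻¹ * τ, (hcomp σ⁻¹ τ G').symm⟩
    · intro A _
      change MvPolynomial.map ((σ⁻¹ : Ω ≃ₐ[L] Ω) : Ω →+* Ω) (MvPolynomial.map (σ : Ω →+* Ω) A) = A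
      rw [hcomp, inv_mul_cancel, hone]
    · intro A _
      change MvPolynomial.map (σ : Ω →+* Ω) (MvPolynomial.map ((σ⁻¹ : Ω ≃ₐ[L] Ω) : Ω →+* Ω) A) = A
      rw [hcomp, mul_inv_cancel, hone]
    · intro A _
      rfl
  have hFne : MvPolynomial.map (algebraMap L Ω) f ≠ 0 := by
    intro h0
    apply hf.ne_zero
    apply MvPolynomial.map_injective (algebraMap L Ω) (algebraMap L Ω).injective
    rw [h0, map_zero]
  obtain ⟨Q, hQ⟩ := hΦF
  have hΦne : Φ ≠ 0 := by
    intro h0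
    rw [h0, zero_mul] at hQ
    exact hFne hQ
  have hQfix : ∀ σ : Ω ≃ₐ[L] Ω, MvPolynomial.map (σ : Ω →+* Ω) Q = Q := by
    intro σ
    have h1 := congrArg (MvPolynomial.map (σ : Ω →+* Ω)) hQ
    rw [hmapF σ, map_mul, hΦfix σ, hQ] at h1
    exact (mul_left_cancel₀ hΦne h1).symm
  obtain ⟨φ, hφ⟩ := fixed_mem_range (L := L) Φ hΦfix
  obtain ⟨q, hq⟩ := fixed_mem_range (L := L) Q hQfix
  have hfac : f = φ * q := by
    apply MvPolynomial.map_injective (algebraMap L Ω) (algebraMap L Ω).injective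
    rw [map_mul, hφ, hq, hQ]
  have hφnu : ¬ IsUnit φ := by
    intro h
    have h1 : IsUnit Φ := by
      rw [← hφ]
      exact h.map _
    have h2 : MvPolynomial.map ((1 : Ω ≃ₐ[L] Ω) : Ω →+* Ω) G' ∈ O := by
      rw [hOmem]
      exact ⟨1, rfl⟩
    have h3 : MvPolynomial.map ((1 : Ω ≃ₐ[L] Ω) : Ω →+* Ω) G' ∣ Φ := by
      rw [hΦ]
      exact Finset.dvd_prod_of_mem (fun A => A) h2
    exact (hOprime _ h2).not_unit (isUnit_of_dvd_unit h3 h1)
  have hqu : IsUnit q := (hf.isUnit_or_isUnit hfac).resolve_left hφnu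
  have hQu : IsUnit Q := by
    rw [← hq]
    exact hqu.map _
  rw [hQ]
  exact (hQu.mul_right_dvd).2 hΦp

end Pool.Agent.H11.HV
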